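import Mathlib
import Pool.Agent.Lib_helper10.LogRank.Cube

set_option autoImplicit false

/-! A Boolean function on the cube with few monomials is sensitive in few directions at `∅`. -/

namespace Pool.Agent.Lib_helper10.AndRank

open Finset Pool.Agent.Lib_helper10.LogRank

variable {κ I : Type*} [Fintype κ] [DecidableEq κ]

/-- A subset `A` such that no large `J i` is contained in `A` or in its complement. -/
theorem exists_split (s : Finset I) (J : I → Finset κ) {t : ℕ}
    (hcard : (s.filter fun i => t < (J i).card).card < 2 ^ t) :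
    ∃ A : Finset κ, ∀ i ∈ s, t < (J i).card → ¬ (J i ⊆ A) ∧ ¬ (J i ⊆ Aᶜ) := by
  classical
  by_contra hcon
  push Not at hcon
  set bad := s.filter fun i => t < (J i).card with hbad
  have hcov : (univ : Finset (Finset κ)) ⊆
      bad.biUnion fun i => (Icc (J i) univ) ∪ (J i)ᶜ.powerset := by
    intro A _
    obtain ⟨i, hi, hti, himp⟩ := hcon A
    rw [mem_biUnion]
    refine ⟨i, mem_filter.2 ⟨hi, hti⟩, ?_⟩
    rw [mem_union]
    by_cases h : J i ⊆ A
    · left; rw [mem_Icc]; exact ⟨h, subset_univ _⟩
    · right
      have := himp h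
      rw [mem_powerset]
      intro x hx
      rw [mem_compl]
      intro hx'
      exact (mem_compl.1 (this hx')) hx
  have hne : bad.Nonempty := by
    by_contra h
    rw [not_nonempty_iff_eq_empty] at h
    rw [h] at hcov
    simpa using hcov (mem_univ ∅)
  obtain ⟨i₀, hi₀⟩ := hne
  have hn : t + 1 ≤ Fintype.card κ := by
    have := (mem_filter.1 hi₀).2
    have h2 := Finset.card_le_univ (J i₀)
    omega
  have h1 : 2 ^ Fintype.card κ ≤ bad.card * 2 ^ (Fintype.card κ - t) := by
    calc 2 ^ Fintype.card κ = (univ : Finset (Finset κ)).card := by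
          rw [Finset.card_univ, Fintype.card_finset]
      _ ≤ _ := card_le_card hcov
      _ ≤ ∑ i ∈ bad, ((Icc (J i) univ) ∪ (J i)ᶜ.powerset).card := card_biUnion_le
      _ ≤ ∑ i ∈ bad, 2 ^ (Fintype.card κ - t) := by
          refine Finset.sum_le_sum fun i hi => ?_
          have hti := (mem_filter.1 hi).2
          have hle := Finset.card_le_univ (J i)
          calc _ ≤ (Icc (J i) univ).card + ((J i)ᶜ.powerset).card := card_union_le _ _
            _ = 2 ^ (Fintype.card κ - (J i).card) + 2 ^ (Fintype.card κ - (J i).card) := by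
                rw [card_powerset, card_compl, Finset.card_Icc_finset (subset_univ _), card_univ]
            _ = 2 ^ (Fintype.card κ - (J i).card + 1) := by rw [pow_succ]; ring
            _ ≤ _ := Nat.pow_le_pow_right (by norm_num) (by omega)
      _ = _ := by rw [Finset.sum_const, smul_eq_mul]
  have h2 : bad.card * 2 ^ (Fintype.card κ - t) < 2 ^ t * 2 ^ (Fintype.card κ - t) :=
    Nat.mul_lt_mul_of_pos_right hcard (by positivity)
  rw [← pow_add] at h2
  have : t + (Fintype.card κ - t) = Fintype.card κ := by omega
  rw [this] at h2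
  omega

/-- Sensitivity bound on a set `A` containing no large `J i`. -/
theorem card_le_of_good (s : Finset I) (w : I → ℝ) (J : I → Finset κ) {t : ℕ} (A : Finset κ)
    (hA : ∀ i ∈ s, t < (J i).card → ¬ (J i ⊆ A))
    (F : Finset κ → ℝ) (hF : ∀ c, F c = ∑ i ∈ s.filter (fun i => J i ⊆ c), w i)
    (hb : ∀ c, F c = 0 ∨ F c = 1) (hs : ∀ j, F {j} ≠ F ∅) : A.card ≤ t ^ 2 := by
  classical
  let e : Finset A → Finset κ := fun c => c.map (Function.Embedding.subtype _)
  set h : Finset A → ℝ := fun c => F (e c) with hh
  have he0 : e ∅ = ∅ := by simp [e]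
  have he1 : ∀ j : A, e {j} = {(j : κ)} := fun j => by simp [e]
  have hesub : ∀ c, e c ⊆ A := by
    intro c x hx
    simp only [e, mem_map, Function.Embedding.coe_subtype] at hx
    obtain ⟨y, _, rfl⟩ := hx
    exact y.2
  have hlow : h ∈ cubeLow A t := by
    have e1 : h = ∑ i ∈ s.filter (fun i => J i ⊆ A), w i •
        (fun c : Finset A => if J i ⊆ e c then (1 : ℝ) else 0) := by
      funext c
      rw [Finset.sum_apply]
      simp only [Pi.smul_apply, smul_eq_mul, mul_ite, mul_one, mul_zero]
      rw [hh]
      simp only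
      rw [hF, ← Finset.sum_filter, Finset.filter_filter]
      refine Finset.sum_congr ?_ fun _ _ => rfl
      ext i
      simp only [mem_filter]
      constructor
      · rintro ⟨h1, h2⟩; exact ⟨h1, h2.trans (hesub c), h2⟩
      · rintro ⟨h1, _, h2⟩; exact ⟨h1, h2⟩
    rw [e1]
    refine Submodule.sum_mem _ fun i hi => Submodule.smul_mem _ _ (Submodule.subset_span ?_)
    obtain ⟨his, hiA⟩ := mem_filter.1 hi
    have hcard : (J i).card ≤ t := by
      by_contra hcon
      exact hA i his (by omega) hiA
    refine ⟨(univ : Finset A).filter (fun x => (x : κ) ∈ J i), ?_, fun V => ?_⟩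
    · refine le_trans ?_ hcard
      refine Finset.card_le_card_of_injOn (fun x : A => (x : κ)) ?_ ?_
      · intro x hx; simpa using hx
      · intro x _ y _ hxy; exact Subtype.ext hxy
    · have : (J i ⊆ e V) ↔ (J i ⊆ e (V ∩ (univ : Finset A).filter (fun x => (x : κ) ∈ J i))) := by
        constructor
        · intro h x hx
          have h1 := h hx
          simp only [e, mem_map, Function.Embedding.coe_subtype] at h1 ⊢
          obtain ⟨y, hy, rfl⟩ := h1
          exact ⟨y, by simp [hy, hx], rfl⟩
        · intro h x hx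
          have h1 := h hx
          simp only [e, mem_map, Function.Embedding.coe_subtype] at h1 ⊢
          obtain ⟨y, hy, rfl⟩ := h1
          exact ⟨y, (mem_inter.1 hy).1, rfl⟩
      simp only [this]
  rcases hb ∅ with h0 | h0
  · have := card_le_sq_of_cubeLow (κ := A) hlow (fun V => by
      rcases hb (e V) with h' | h' <;> simp [hh, h'])
      (by simp [hh, he0, h0]) (fun j => by
        have h1 := hs (j : κ)
        rcases hb {(j : κ)} with h' | h'
        · rw [h', h0] at h1; exact absurd rfl h1
        · simp [hh, he1, h'])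
    simpa using this
  · have hlow' : (fun c => 1 - h c) ∈ cubeLow A t := by
      have hc : (fun _ : Finset A => (1 : ℝ)) ∈ cubeLow A t :=
        Submodule.subset_span ⟨∅, by simp, fun V => rfl⟩
      exact Submodule.sub_mem _ hc hlow
    have := card_le_sq_of_cubeLow (κ := A) hlow' (fun V => by
      rcases hb (e V) with h' | h' <;> simp [hh, h'])
      (by simp [hh, he0, h0]) (fun j => by
        have h1 := hs (j : κ)
        rcases hb {(j : κ)} with h' | h'
        · simp [hh, he1, h']
        · rw [h', h0] at h1; exact absurd rfl h1)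
    simpa using this

/-- Monotone block sensitivity bound. -/
theorem mbs (s : Finset I) (w : I → ℝ) (J : I → Finset κ) {t : ℕ}
    (hcard : (s.filter fun i => t < (J i).card).card < 2 ^ t)
    (F : Finset κ → ℝ) (hF : ∀ c, F c = ∑ i ∈ s.filter (fun i => J i ⊆ c), w i)
    (hb : ∀ c, F c = 0 ∨ F c = 1) (hs : ∀ j, F {j} ≠ F ∅) : Fintype.card κ ≤ 2 * t ^ 2 := by
  obtain ⟨A, hA⟩ := exists_split s J hcard
  have h1 := card_le_of_good s w J A (fun i hi ht => (hA i hi ht).1) F hF hb hs
  have h2 := card_le_of_good s w J Aᶜ (fun i hi ht => (hA i hi ht).2) F hF hb hs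
  have h3 := Finset.card_add_card_compl A
  omega

end Pool.Agent.Lib_helper10.AndRank
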