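import Mathlib
import Pool.Agent.Lib_helper10.AndRank.Mbs

set_option autoImplicit false
set_option linter.unusedSectionVars false

/-! Möbius coefficients, restriction to `U ⊆ z`, clean tuples of monomials. -/

namespace Pool.Agent.Lib_helper10.AndRank

open Finset

variable {ι : Type*} [DecidableEq ι] [Fintype ι]

/-- Value at `z` of the polynomial `∑ a S z^S`. -/
noncomputable def val (a : Finset ι → ℝ) (z : Finset ι) : ℝ := ∑ S ∈ z.powerset, a S

/-- Coefficients of the polynomial after setting the variables of `U` to one. -/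
noncomputable def res (a : Finset ι → ℝ) (U W : Finset ι) : ℝ :=
  ∑ S ∈ (univ : Finset (Finset ι)).filter (fun S => S \ U = W), a S

theorem val_res (a : Finset ι → ℝ) (U z : Finset ι) : val (res a U) z = val a (U ∪ z) := by
  unfold val res
  have h : ∀ S ∈ (U ∪ z).powerset, S \ U ∈ z.powerset := by
    intro S hS
    rw [mem_powerset] at hS ⊢
    intro x hx
    rw [mem_sdiff] at hx
    rcases mem_union.1 (hS hx.1) with h | h
    · exact absurd h hx.2
    · exact h
  rw [← Finset.sum_fiberwise_of_maps_to h]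
  refine Finset.sum_congr rfl fun W hW => Finset.sum_congr ?_ fun _ _ => rfl
  ext S
  simp only [mem_filter, mem_univ, true_and, mem_powerset]
  constructor
  · intro h1
    refine ⟨?_, h1⟩
    intro x hx
    by_cases hxU : x ∈ U
    · exact mem_union_left _ hxU
    · refine mem_union_right _ (mem_powerset.1 hW ?_)
      rw [← h1]; exact mem_sdiff.2 ⟨hx, hxU⟩
  · exact fun h1 => h1.2

/-- if `res a U W ≠ 0` there is a monomial `S` with `S \ U = W` -/
theorem exists_of_res_ne {a : Finset ι → ℝ} {U W : Finset ι} (h : res a U W ≠ 0) :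
    ∃ S, S \ U = W ∧ a S ≠ 0 := by
  obtain ⟨S, hS, hS'⟩ := Finset.exists_ne_zero_of_sum_ne_zero h
  exact ⟨S, (mem_filter.1 hS).2, hS'⟩

theorem subset_union_of_sdiff_eq {S U W : Finset ι} (h : S \ U = W) : S ⊆ U ∪ W := by
  intro x hx
  by_cases hxU : x ∈ U
  · exact mem_union_left _ hxU
  · exact mem_union_right _ (h ▸ mem_sdiff.2 ⟨hx, hxU⟩)

/-- `M` is the set of nonempty monomials of `a` in the complex `D`. -/
structure IsMon (D : Finset ι → Prop) (a : Finset ι → ℝ) (M : Finset (Finset ι)) : Prop where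
  mem : ∀ S, S ∈ M ↔ S ≠ ∅ ∧ D S ∧ a S ≠ 0

/-- `S` is the only monomial of its class modulo `V`, the class is nontrivial and alive. -/
def Clean (D : Finset ι → Prop) (M : Finset (Finset ι)) (V S : Finset ι) : Prop :=
  S \ V ≠ ∅ ∧ D (V ∪ S) ∧ ∀ S' ∈ M, S' \ V = S \ V → S' = S

section block

variable {κ : Type*} [Fintype κ] [DecidableEq κ]

/-- union of the other members of the tuple -/
def others (T : κ → Finset ι) (j : κ) : Finset ι := (univ.erase j).biUnion T

theorem clean_card_le {D : Finset ι → Prop} (hdown : ∀ z z', z' ⊆ z → D z → D z')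
    {a : Finset ι → ℝ} (hbool : ∀ z, D z → val a z = 0 ∨ val a z = 1)
    {M : Finset (Finset ι)} (hM : IsMon D a M) {t : ℕ} (ht : M.card < 2 ^ t)
    (T : κ → Finset ι) (hT : ∀ j, T j ∈ M) (hU : D (univ.biUnion T))
    (J₀ : Finset κ) (hJ : ∀ j ∈ J₀, Clean D M (others T j) (T j)) : J₀.card ≤ 2 * t ^ 2 := by
  classical
  set U := univ.biUnion T with hUdef
  have hTU : ∀ j, T j ⊆ U := fun j => Finset.subset_biUnion_of_mem T (mem_univ j)
  have hTo : ∀ j l, l ≠ j → T l ⊆ others T j := fun j l h =>
    Finset.subset_biUnion_of_mem T (mem_erase.2 ⟨h, mem_univ l⟩)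
  set E : κ → Finset ι := fun j => T j \ others T j with hE
  have hEdisj : ∀ j l x, x ∈ E j → x ∈ T l → l = j := by
    intro j l x hx hx'
    by_contra hne
    exact (mem_sdiff.1 hx).2 (hTo j l hne hx')
  have hUo : ∀ j x, x ∈ U → x ∉ others T j → x ∈ E j := by
    intro j x hx hx'
    refine mem_sdiff.2 ⟨?_, hx'⟩
    obtain ⟨l, _, hl⟩ := mem_biUnion.1 hx
    by_cases h : l = j
    · exact h ▸ hl
    · exact absurd (hTo j l h hl) hx'
  set C := U \ J₀.biUnion E with hC
  set b := res a C with hb
  have hCE : ∀ j ∈ J₀, ∀ x, x ∈ E j → x ∉ C := by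
    intro j hj x hx hxC
    exact (mem_sdiff.1 hxC).2 (mem_biUnion.2 ⟨j, hj, hx⟩)
  have hEU : ∀ j, E j ⊆ U := fun j => sdiff_subset.trans (hTU j)
  -- top coefficient
  have htop : ∀ j ∈ J₀, b (E j) = a (T j) := by
    intro j hj
    rw [hb, res]
    refine Finset.sum_eq_single_of_mem (T j) ?_ ?_
    · rw [mem_filter]
      refine ⟨mem_univ _, ?_⟩
      ext x
      rw [mem_sdiff]
      constructor
      · rintro ⟨h1, h2⟩
        have hxU := hTU j h1
        have : x ∈ J₀.biUnion E := by
          by_contra h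
          exact h2 (mem_sdiff.2 ⟨hxU, h⟩)
        obtain ⟨l, _, hl⟩ := mem_biUnion.1 this
        have := hEdisj l j x hl h1
        rw [this]; exact hl
      · intro h
        exact ⟨(mem_sdiff.1 h).1, hCE j hj x h⟩
    · intro S hS hne
      rw [mem_filter] at hS
      have hS2 := hS.2
      by_contra ha
      have hSU : S ⊆ U := (subset_union_of_sdiff_eq hS2).trans
        (union_subset sdiff_subset (hEU j))
      have hSne : S ≠ ∅ := by
        rintro rfl
        rw [empty_sdiff] at hS2
        exact (hJ j hj).1 hS2.symm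
      have hSM : S ∈ M := (hM.mem S).2 ⟨hSne, hdown _ _ hSU hU, ha⟩
      refine hne ((hJ j hj).2.2 S hSM ?_)
      ext x
      rw [mem_sdiff]
      constructor
      · rintro ⟨h1, h2⟩
        exact hUo j x (hSU h1) h2
      · intro h
        have h' : x ∈ S \ C := by rw [hS2]; exact h
        exact ⟨(mem_sdiff.1 h').1, (mem_sdiff.1 h).2⟩
  -- sensitive blocks
  have hexB : ∀ j ∈ J₀, ∃ B, B ⊆ E j ∧ B ≠ ∅ ∧ b B ≠ 0 ∧ ∀ W, W ⊂ B → W ≠ ∅ → b W = 0 := by
    intro j hj
    set 𝒮 := (E j).powerset.filter (fun B => B ≠ ∅ ∧ b B ≠ 0) with h𝒮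
    have hne : 𝒮.Nonempty := by
      refine ⟨E j, mem_filter.2 ⟨mem_powerset.2 Subset.rfl, (hJ j hj).1, ?_⟩⟩
      rw [htop j hj]
      exact ((hM.mem _).1 (hT j)).2.2
    obtain ⟨B, hB, hmin⟩ := Finset.exists_min_image 𝒮 Finset.card hne
    obtain ⟨hB1, hB2, hB3⟩ := mem_filter.1 hB
    refine ⟨B, mem_powerset.1 hB1, hB2, hB3, fun W hW hWne => ?_⟩
    by_contra hbW
    have := hmin W (mem_filter.2 ⟨mem_powerset.2 (hW.1.trans (mem_powerset.1 hB1)), hWne, hbW⟩)
    have := Finset.card_lt_card hW
    omega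
  choose! B hB1 hB2 hB3 hB4 using hexB
  have hBdisj : ∀ j ∈ J₀, ∀ l ∈ J₀, ∀ x, x ∈ B j → x ∈ B l → j = l := by
    intro j hj l hl x h1 h2
    exact hEdisj l j x (hB1 l hl h2) (mem_sdiff.1 (hB1 j hj h1)).1
  -- the function on the cube
  set B' : {j // j ∈ J₀} → Finset ι := fun j => B j with hB'
  set F : Finset {j // j ∈ J₀} → ℝ := fun c => val b (c.biUnion B') with hF
  set s := ((univ : Finset {j // j ∈ J₀}).biUnion B').powerset.filter (fun W => b W ≠ 0) with hs
  set J : Finset ι → Finset {j // j ∈ J₀} := fun W =>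
    univ.filter (fun j => ¬ Disjoint W (B' j)) with hJdef
  have hsubU : ∀ c : Finset {j // j ∈ J₀}, c.biUnion B' ⊆ U := by
    intro c x hx
    obtain ⟨j, _, hj⟩ := mem_biUnion.1 hx
    exact hEU j (hB1 j j.2 hj)
  have hCU : C ⊆ U := sdiff_subset
  have hcard : (s.filter fun W => t < (J W).card).card < 2 ^ t := by
    refine lt_of_le_of_lt ?_ ht
    calc (s.filter fun W => t < (J W).card).card ≤ (M.image (fun S => S \ C)).card := by
          refine card_le_card fun W hW => ?_
          obtain ⟨hW1, hW2⟩ := mem_filter.1 hW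
          obtain ⟨hW3, hW4⟩ := mem_filter.1 hW1
          obtain ⟨S, hS1, hS2⟩ := exists_of_res_ne hW4
          refine mem_image.2 ⟨S, (hM.mem S).2 ⟨?_, ?_, hS2⟩, hS1⟩
          · rintro rfl
            rw [empty_sdiff] at hS1
            subst hS1
            simp [hJdef] at hW2
          · refine hdown _ _ ?_ hU
            exact (subset_union_of_sdiff_eq hS1).trans
              (union_subset hCU ((mem_powerset.1 hW3).trans (hsubU _)))
      _ ≤ M.card := card_image_le
  have hFsum : ∀ c, F c = ∑ W ∈ s.filter (fun W => J W ⊆ c), b W := by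
    intro c
    rw [hF]
    simp only [val]
    rw [hs, Finset.filter_filter]
    rw [← Finset.sum_filter_ne_zero]
    refine Finset.sum_congr ?_ fun _ _ => rfl
    ext W
    simp only [mem_filter, mem_powerset]
    constructor
    · rintro ⟨h1, h2⟩
      refine ⟨h1.trans (Finset.biUnion_subset_biUnion_of_subset_left _ (subset_univ c)), h2, ?_⟩
      intro j hj
      simp only [hJdef, mem_filter, mem_univ, true_and, Finset.not_disjoint_iff] at hj
      obtain ⟨x, hx1, hx2⟩ := hj
      obtain ⟨l, hl1, hl2⟩ := mem_biUnion.1 (h1 hx1)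
      have : (j : κ) = l := hBdisj j j.2 l l.2 x hx2 hl2
      rw [Subtype.ext this]; exact hl1
    · rintro ⟨h1, h2, h3⟩
      refine ⟨fun x hx => ?_, h2⟩
      obtain ⟨j, _, hj⟩ := mem_biUnion.1 (h1 hx)
      refine mem_biUnion.2 ⟨j, h3 ?_, hj⟩
      simp only [hJdef, mem_filter, mem_univ, true_and, Finset.not_disjoint_iff]
      exact ⟨x, hx, hj⟩
  have hFb : ∀ c, F c = 0 ∨ F c = 1 := by
    intro c
    have : F c = val a (C ∪ c.biUnion B') := by rw [hF, hb]; exact val_res _ _ _
    rw [this]
    exact hbool _ (hdown _ _ (union_subset hCU (hsubU c)) hU)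
  have hFs : ∀ j, F {j} ≠ F ∅ := by
    intro j
    have h0 : F ∅ = b ∅ := by simp [hF, val]
    have h1 : F {j} = b ∅ + b (B j) := by
      have hpair : F {j} = ∑ W ∈ ({∅, B j} : Finset (Finset ι)), b W := by
        rw [hF]
        simp only [val, singleton_biUnion]
        symm
        refine Finset.sum_subset ?_ ?_
        · intro W hW
          rw [mem_insert, mem_singleton] at hW
          rcases hW with rfl | rfl
          · simp
          · simp [hB']
        · intro W hW hW'
          rw [mem_insert, mem_singleton] at hW'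
          push Not at hW'
          refine hB4 j j.2 W ?_ hW'.1.ne_empty
          rw [Finset.ssubset_iff_subset_ne]
          exact ⟨mem_powerset.1 hW, hW'.2⟩
      rw [hpair, Finset.sum_pair (hB2 j j.2).symm]
    rw [h0, h1]
    intro h
    exact hB3 j j.2 (by linarith)
  have := mbs s b J hcard F hFsum hFb hFs
  simpa using this

end block

end Pool.Agent.Lib_helper10.AndRank
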