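import Mathlib
import Pool.Agent.Lib_helper10.LogRank.Proto

set_option autoImplicit false
set_option linter.unusedSectionVars false

/-! From large rank-one subrectangles to protocols (Nisan–Wigderson). -/

namespace Pool.Agent.Lib_helper10.AndRank

open Finset Pool.Agent.Lib_helper10.LogRank

variable {P Q : Type} [DecidableEq P] [DecidableEq Q] [Fintype Q]

/-- row vector restricted to the columns `B` -/
def vec (G : P → Q → Bool) (B : Finset Q) (x : P) : Q → ℝ :=
  fun y => if y ∈ B ∧ G x y = true then 1 else 0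

/-- rank of the submatrix -/
noncomputable def rk (G : P → Q → Bool) (A : Finset P) (B : Finset Q) : ℕ :=
  Module.finrank ℝ (Submodule.span ℝ (vec G B '' (A : Set P)))

theorem finrank_split {E F : Type*} [AddCommGroup E] [Module ℝ E] [FiniteDimensional ℝ E]
    [AddCommGroup F] [Module ℝ F] (f : E →ₗ[ℝ] F) (V : Submodule ℝ E) :
    Module.finrank ℝ V = Module.finrank ℝ (V.map f) +
      Module.finrank ℝ (V ⊓ LinearMap.ker f : Submodule ℝ E) := by
  have h := (f.domRestrict V).finrank_range_add_finrank_ker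
  rw [LinearMap.range_domRestrict] at h
  rw [← h]
  congr 1
  have : V ⊓ LinearMap.ker f = (LinearMap.ker (f.domRestrict V)).map V.subtype := by
    rw [LinearMap.domRestrict, LinearMap.ker_comp, Submodule.map_comap_subtype]
  rw [this, Submodule.finrank_map_subtype_eq]

theorem rk_empty (G : P → Q → Bool) (B : Finset Q) : rk G ∅ B = 0 := by
  have : Submodule.span ℝ (vec G B '' ((∅ : Finset P) : Set P)) = ⊥ := by simp
  rw [rk, this]
  simp

/-- projection to the columns of `B` -/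
noncomputable def proj (B : Finset Q) : (Q → ℝ) →ₗ[ℝ] (Q → ℝ) where
  toFun v := fun y => if y ∈ B then v y else 0
  map_add' u v := by ext y; simp only [Pi.add_apply]; split_ifs <;> simp
  map_smul' c v := by ext y; simp only [Pi.smul_apply, smul_eq_mul, RingHom.id_apply]
                      split_ifs <;> simp

theorem proj_vec (G : P → Q → Bool) {B B' : Finset Q} (h : B' ⊆ B) (x : P) :
    proj B' (vec G B x) = vec G B' x := by
  ext y
  simp only [proj, vec, LinearMap.coe_mk, AddHom.coe_mk]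
  by_cases hy : y ∈ B'
  · simp [hy, h hy]
  · simp [hy]

theorem map_span (G : P → Q → Bool) {B B' : Finset Q} (h : B' ⊆ B) (A : Finset P) :
    (Submodule.span ℝ (vec G B '' (A : Set P))).map (proj B') =
      Submodule.span ℝ (vec G B' '' (A : Set P)) := by
  rw [Submodule.map_span, ← Set.image_comp]
  congr 1
  refine Set.image_congr fun x _ => ?_
  exact proj_vec G h x

theorem rk_mono_left (G : P → Q → Bool) {A A' : Finset P} (h : A' ⊆ A) (B : Finset Q) :
    rk G A' B ≤ rk G A B :=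
  Submodule.finrank_mono (Submodule.span_mono (Set.image_mono (by exact_mod_cast h)))

theorem rk_mono_right (G : P → Q → Bool) (A : Finset P) {B B' : Finset Q} (h : B' ⊆ B) :
    rk G A B' ≤ rk G A B := by
  unfold rk
  rw [← map_span G h A]
  exact Submodule.finrank_map_le _ _

theorem rk_add (G : P → Q → Bool) {A A' : Finset P} (hA : A' ⊆ A) {B B' : Finset Q}
    (hB : B' ⊆ B) : rk G A' B + rk G A B' ≤ rk G A B + rk G A' B' := by
  have h1 := finrank_split (proj B') (Submodule.span ℝ (vec G B '' (A : Set P)))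
  have h2 := finrank_split (proj B') (Submodule.span ℝ (vec G B '' (A' : Set P)))
  rw [map_span G hB] at h1 h2
  have h3 : Module.finrank ℝ (Submodule.span ℝ (vec G B '' (A' : Set P)) ⊓
      LinearMap.ker (proj B') : Submodule ℝ (Q → ℝ)) ≤
      Module.finrank ℝ (Submodule.span ℝ (vec G B '' (A : Set P)) ⊓
      LinearMap.ker (proj B') : Submodule ℝ (Q → ℝ)) :=
    Submodule.finrank_mono (inf_le_inf_right _
      (Submodule.span_mono (Set.image_mono (by exact_mod_cast hA))))
  unfold rk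
  omega

theorem rk_le_one {G : P → Q → Bool} {A : Finset P} {B : Finset Q}
    (h : ∀ y ∈ B, ∃ b, ∀ x ∈ A, G x y = b) : rk G A B ≤ 1 := by
  classical
  rcases A.eq_empty_or_nonempty with rfl | ⟨x₀, hx₀⟩
  · rw [rk_empty]; exact Nat.zero_le _
  · have : vec G B '' (A : Set P) ⊆ {vec G B x₀} := by
      rintro _ ⟨x, hx, rfl⟩
      rw [Set.mem_singleton_iff]
      ext y
      simp only [vec]
      by_cases hy : y ∈ B
      · obtain ⟨b, hb⟩ := h y hy
        rw [hb x hx, hb x₀ hx₀]
      · simp [hy]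
    calc rk G A B ≤ Module.finrank ℝ (Submodule.span ℝ {vec G B x₀}) :=
          Submodule.finrank_mono (Submodule.span_mono this)
      _ ≤ 1 := by
          have := finrank_span_le_card (R := ℝ) ({vec G B x₀} : Set (Q → ℝ))
          simpa using this

/-- rank one matrices -/
theorem ccOn_of_rk_le_one {G : P → Q → Bool} {A : Finset P} {B : Finset Q} (h : rk G A B ≤ 1) :
    CCOn (fun x y => x ∈ A ∧ y ∈ B) G 2 := by
  by_cases h0 : ∃ x₀ ∈ A, ∃ y₀ ∈ B, G x₀ y₀ = true
  · obtain ⟨x₀, hx₀, y₀, hy₀, hG⟩ := h0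
    have hv : vec G B x₀ y₀ = 1 := by simp [vec, hy₀, hG]
    have key : ∀ x ∈ A, ∀ y ∈ B, G x y = (G x y₀ && G x₀ y) := by
      intro x hx y hy
      set V := Submodule.span ℝ (vec G B '' (A : Set P)) with hV
      have hx₀V : vec G B x₀ ∈ V := Submodule.subset_span ⟨x₀, hx₀, rfl⟩
      have hxV : vec G B x ∈ V := Submodule.subset_span ⟨x, hx, rfl⟩
      have hne : (⟨vec G B x₀, hx₀V⟩ : V) ≠ 0 := by
        intro h'
        have : vec G B x₀ = 0 := by simpa using congrArg Subtype.val h'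
        rw [this] at hv
        simp at hv
      have hfin : Module.finrank ℝ V = 1 := by
        refine le_antisymm h ?_
        have : 0 < Module.finrank ℝ V := Module.finrank_pos_iff_exists_ne_zero.2 ⟨_, hne⟩
        omega
      obtain ⟨c, hc⟩ := exists_smul_eq_of_finrank_eq_one hfin hne ⟨vec G B x, hxV⟩
      have hc' : ∀ z, c * vec G B x₀ z = vec G B x z := by
        intro z
        have := congrArg (fun v : V => (v : Q → ℝ) z) hc
        simpa using this
      have hc0 : c = vec G B x y₀ := by rw [← hc' y₀, hv, mul_one]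
      have hcy := hc' y
      rw [hc0] at hcy
      simp only [vec, hy₀, hy, true_and] at hcy
      cases h1 : G x y₀ <;> cases h2 : G x₀ y <;> cases h3 : G x y <;>
        simp [h1, h2, h3] at hcy ⊢
    refine ⟨Protocol.alice (fun x => G x y₀) (Protocol.leaf false)
      (Protocol.bob (fun y => G x₀ y) (Protocol.leaf false) (Protocol.leaf true)), ?_, ?_⟩
    · simp [Protocol.cost]
    · rintro x y ⟨hx, hy⟩
      rw [key x hx y hy]
      simp only [Protocol.eval]
      rcases Bool.eq_false_or_eq_true (G x y₀) with h1 | h1 <;>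
        rcases Bool.eq_false_or_eq_true (G x₀ y) with h2 | h2 <;> simp [h1, h2]
  · push Not at h0
    refine ⟨Protocol.leaf false, by simp [Protocol.cost], ?_⟩
    rintro x y ⟨hx, hy⟩
    have := h0 x hx y hy
    simp only [Protocol.eval]
    simpa using this.symm

/-- every submatrix of `A₀ × B₀` has a rank-one submatrix with a `2^{-q}` fraction of the rows
and of the columns -/
def Good (G : P → Q → Bool) (A₀ : Finset P) (B₀ : Finset Q) (q : ℕ) : Prop :=
  ∀ A ⊆ A₀, ∀ B ⊆ B₀, ∃ A' ⊆ A, ∃ B' ⊆ B, A.card ≤ 2 ^ q * A'.card ∧ B.card ≤ 2 ^ q * B'.card ∧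
    rk G A' B' ≤ 1

theorem shrink {k c c' n : ℕ} (hc' : c ≤ k * c') (hle : c' ≤ c) (hk : 0 < k)
    (h : c * (k - 1) ^ (n + 1) < k ^ (n + 1)) : (c - c') * (k - 1) ^ n < k ^ n := by
  have h1 : k * (c - c') ≤ (k - 1) * c := by
    zify [hle, Nat.one_le_iff_ne_zero.2 hk.ne']
    have : (c : ℤ) ≤ k * c' := by exact_mod_cast hc'
    linarith
  have h2 : k * ((c - c') * (k - 1) ^ n) < k * k ^ n := by
    calc k * ((c - c') * (k - 1) ^ n) = (k * (c - c')) * (k - 1) ^ n := by ring
      _ ≤ ((k - 1) * c) * (k - 1) ^ n := Nat.mul_le_mul h1 le_rfl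
      _ = c * (k - 1) ^ (n + 1) := by ring
      _ < k ^ (n + 1) := h
      _ = k * k ^ n := by ring
  exact lt_of_mul_lt_mul_left h2 (Nat.zero_le _)

/-- Peeling off rectangles of half the rank. -/
theorem peel {G : P → Q → Bool} {A₀ : Finset P} {B₀ : Finset Q} {q r : ℕ}
    (hG : Good G A₀ B₀ q) : ∀ (n n₁ n₂ : ℕ) (A : Finset P) (B : Finset Q), n₁ + n₂ = n →
    A ⊆ A₀ → B ⊆ B₀ → A.card * (2 ^ q - 1) ^ n₁ < (2 ^ q) ^ n₁ →
    B.card * (2 ^ q - 1) ^ n₂ < (2 ^ q) ^ n₂ → rk G A B ≤ r →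
    ∃ (ℓA : P → ℕ) (ℓB : Q → ℕ) (Ar : ℕ → Finset P) (Br : ℕ → Finset Q),
      (∀ x, ℓA x ≤ n) ∧ (∀ y, ℓB y ≤ n) ∧
      (∀ i, Ar i ⊆ A ∧ Br i ⊆ B ∧ 2 * rk G (Ar i) (Br i) ≤ r + 1) ∧
      ∀ x ∈ A, ∀ y ∈ B, x ∈ Ar (min (ℓA x) (ℓB y)) ∧ y ∈ Br (min (ℓA x) (ℓB y)) := by
  intro n
  induction n with
  | zero =>
    intro n₁ n₂ A B hn hA hB hcA hcB hr
    have h1 : n₁ = 0 := by omega
    subst h1
    have hA0 : A = ∅ := by
      simp at hcA
      exact hcA
    subst hA0
    refine ⟨fun _ => 0, fun _ => 0, fun _ => ∅, fun _ => ∅, by simp, by simp, ?_, by simp⟩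
    intro i
    rw [rk_empty]
    simp
  | succ n ih =>
    intro n₁ n₂ A B hn hA hB hcA hcB hr
    rcases A.eq_empty_or_nonempty with rfl | hAne
    · refine ⟨fun _ => 0, fun _ => 0, fun _ => ∅, fun _ => ∅, by simp, by simp, ?_, by simp⟩
      intro i
      rw [rk_empty]
      simp
    rcases B.eq_empty_or_nonempty with rfl | hBne
    · refine ⟨fun _ => 0, fun _ => 0, fun _ => ∅, fun _ => ∅, by simp, by simp, ?_, by simp⟩
      intro i
      rw [rk_empty]
      simp
    have hn₁ : n₁ ≠ 0 := by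
      rintro rfl
      simp at hcA
      exact hAne.ne_empty hcA
    have hn₂ : n₂ ≠ 0 := by
      rintro rfl
      simp at hcB
      exact hBne.ne_empty hcB
    obtain ⟨m₁, rfl⟩ := Nat.exists_eq_succ_of_ne_zero hn₁
    obtain ⟨m₂, rfl⟩ := Nat.exists_eq_succ_of_ne_zero hn₂
    obtain ⟨A', hA', B', hB', hAc, hBc, hrk⟩ := hG A hA B hB
    have hadd := rk_add G hA' hB'
    have hpos : 0 < 2 ^ q := by positivity
    by_cases hcase : 2 * rk G A' B ≤ r + 1
    · obtain ⟨ℓA, ℓB, Ar, Br, h1, h2, h3, h4⟩ := ih m₁ (m₂ + 1) (A \ A') B (by omega)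
        (sdiff_subset.trans hA) hB (by
          rw [card_sdiff_of_subset hA']
          exact shrink hAc (card_le_card hA') hpos hcA) hcB
          ((rk_mono_left G sdiff_subset B).trans hr)
      refine ⟨fun x => if x ∈ A' then 0 else ℓA x + 1, fun y => ℓB y + 1,
        fun i => if i = 0 then A' else Ar (i - 1), fun i => if i = 0 then B else Br (i - 1),
        ?_, ?_, ?_, ?_⟩
      · intro x
        have := h1 x
        show (if x ∈ A' then 0 else ℓA x + 1) ≤ n + 1
        split_ifs <;> omega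
      · intro y
        have := h2 y
        show ℓB y + 1 ≤ n + 1
        omega
      · intro i
        by_cases hi : i = 0
        · simp only [hi, if_true]
          exact ⟨hA', Subset.rfl, hcase⟩
        · simp only [hi, if_false]
          obtain ⟨h5, h6, h7⟩ := h3 (i - 1)
          exact ⟨h5.trans sdiff_subset, h6, h7⟩
      · intro x hx y hy
        by_cases hxA : x ∈ A'
        · simp [hxA, hy]
        · obtain ⟨h5, h6⟩ := h4 x (mem_sdiff.2 ⟨hx, hxA⟩) y hy
          simp only [hxA, if_false]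
          rw [Nat.add_min_add_right]
          simp [h5, h6]
    · have hcase' : 2 * rk G A B' ≤ r + 1 := by omega
      obtain ⟨ℓA, ℓB, Ar, Br, h1, h2, h3, h4⟩ := ih (m₁ + 1) m₂ A (B \ B') (by omega)
        hA (sdiff_subset.trans hB) hcA (by
          rw [card_sdiff_of_subset hB']
          exact shrink hBc (card_le_card hB') hpos hcB)
          ((rk_mono_right G A sdiff_subset).trans hr)
      refine ⟨fun x => ℓA x + 1, fun y => if y ∈ B' then 0 else ℓB y + 1,
        fun i => if i = 0 then A else Ar (i - 1), fun i => if i = 0 then B' else Br (i - 1),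
        ?_, ?_, ?_, ?_⟩
      · intro x
        have := h1 x
        show ℓA x + 1 ≤ n + 1
        omega
      · intro y
        have := h2 y
        show (if y ∈ B' then 0 else ℓB y + 1) ≤ n + 1
        split_ifs <;> omega
      · intro i
        by_cases hi : i = 0
        · simp only [hi, if_true]
          exact ⟨Subset.rfl, hB', hcase'⟩
        · simp only [hi, if_false]
          obtain ⟨h5, h6, h7⟩ := h3 (i - 1)
          exact ⟨h5, h6.trans sdiff_subset, h7⟩
      · intro x hx y hy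
        by_cases hyB : y ∈ B'
        · simp [hyB, hx]
        · obtain ⟨h5, h6⟩ := h4 x hx y (mem_sdiff.2 ⟨hy, hyB⟩)
          simp only [hyB, if_false]
          rw [Nat.add_min_add_right]
          simp [h5, h6]

theorem phases {G : P → Q → Bool} {A₀ : Finset P} {B₀ : Finset Q} {q w n₁ n₂ : ℕ}
    (hG : Good G A₀ B₀ q) (hA₀ : A₀.card * (2 ^ q - 1) ^ n₁ < (2 ^ q) ^ n₁)
    (hB₀ : B₀.card * (2 ^ q - 1) ^ n₂ < (2 ^ q) ^ n₂) (hw : n₁ + n₂ < 2 ^ w) :
    ∀ (k : ℕ) (A : Finset P) (B : Finset Q), A ⊆ A₀ → B ⊆ B₀ → rk G A B ≤ 2 ^ k →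
      CCOn (fun x y => x ∈ A ∧ y ∈ B) G (k * (2 * w) + 2) := by
  intro k
  induction k with
  | zero =>
    intro A B hA hB hr
    simpa using ccOn_of_rk_le_one (by simpa using hr)
  | succ k ih =>
    intro A B hA hB hr
    obtain ⟨ℓA, ℓB, Ar, Br, h1, h2, h3, h4⟩ := peel hG (n₁ + n₂) n₁ n₂ A B rfl hA hB
      (lt_of_le_of_lt (Nat.mul_le_mul (card_le_card hA) le_rfl) hA₀)
      (lt_of_le_of_lt (Nat.mul_le_mul (card_le_card hB) le_rfl) hB₀) hr
    have e : (k + 1) * (2 * w) + 2 = ((k * (2 * w) + 2) + w) + w := by ring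
    rw [e]
    refine sendA_nat (c := (k * (2 * w) + 2) + w) (R := fun x y => x ∈ A ∧ y ∈ B) w _ ℓA
      (fun x => lt_of_le_of_lt (h1 x) hw) fun i => ?_
    refine sendB_nat (c := k * (2 * w) + 2) (R := fun x y => (x ∈ A ∧ y ∈ B) ∧ ℓA x = i) w _ ℓB
      (fun y => lt_of_le_of_lt (h2 y) hw) fun j => ?_
    obtain ⟨h5, h6, h7⟩ := h3 (min i j)
    refine (ih (Ar (min i j)) (Br (min i j)) (h5.trans hA) (h6.trans hB) ?_).mono ?_ le_rfl
    · rw [pow_succ] at h7
      omega
    · rintro x y ⟨⟨⟨hx, hy⟩, hi⟩, hj⟩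
      have := h4 x hx y hy
      rw [hi, hj] at this
      exact this

theorem two_mul_pred_pow_le (k : ℕ) (hk : 0 < k) : 2 * (k - 1) ^ k ≤ k ^ k := by
  obtain ⟨m, rfl⟩ := Nat.exists_eq_succ_of_ne_zero hk.ne'
  simp only [Nat.succ_eq_add_one, Nat.add_sub_cancel]
  have h' : ∀ n, m ^ (n + 1) + (n + 1) * m ^ n ≤ (m + 1) ^ (n + 1) := by
    intro n
    induction n with
    | zero => simp
    | succ n ih =>
      have e : (m + 1) ^ (n + 1 + 1) = (m + 1) * (m + 1) ^ (n + 1) := by ring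
      have e2 : (m + 1) * (m ^ (n + 1) + (n + 1) * m ^ n) =
          m ^ (n + 1 + 1) + (n + 1 + 1) * m ^ (n + 1) + (n + 1) * m ^ n := by ring
      rw [e]
      have := Nat.mul_le_mul (le_refl (m + 1)) ih
      rw [e2] at this
      exact (Nat.le_add_right _ _).trans this
  have h := h' m
  have : m ^ (m + 1) = m * m ^ m := by ring
  nlinarith [Nat.zero_le (m ^ m)]

theorem size_bound (q N c : ℕ) (hc : c ≤ 2 ^ N) :
    c * (2 ^ q - 1) ^ (2 ^ q * (N + 1)) < (2 ^ q) ^ (2 ^ q * (N + 1)) := by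
  have hpos : 0 < 2 ^ q := by positivity
  have h1 := two_mul_pred_pow_le (2 ^ q) hpos
  have h2 : 2 ^ (N + 1) * (2 ^ q - 1) ^ (2 ^ q * (N + 1)) ≤ (2 ^ q) ^ (2 ^ q * (N + 1)) := by
    calc 2 ^ (N + 1) * (2 ^ q - 1) ^ (2 ^ q * (N + 1))
        = (2 * (2 ^ q - 1) ^ (2 ^ q)) ^ (N + 1) := by rw [mul_pow, ← pow_mul]
      _ ≤ ((2 ^ q) ^ (2 ^ q)) ^ (N + 1) := Nat.pow_le_pow_left h1 _
      _ = _ := by rw [← pow_mul]
  have h3 : 0 < (2 ^ q) ^ (2 ^ q * (N + 1)) := by positivity
  rw [pow_succ] at h2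
  have h4 : c * (2 ^ q - 1) ^ (2 ^ q * (N + 1)) ≤ 2 ^ N * (2 ^ q - 1) ^ (2 ^ q * (N + 1)) :=
    Nat.mul_le_mul hc le_rfl
  nlinarith

end Pool.Agent.Lib_helper10.AndRank
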