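import Mathlib
import Pool.Agent.Lib_helper10.AndRank.Block

set_option autoImplicit false
set_option linter.unusedSectionVars false

/-! Key lemma: some union of few monomials kills a quarter of all monomials. -/

namespace Pool.Agent.Lib_helper10.AndRank

open Finset

variable {ι : Type*} [DecidableEq ι] [Fintype ι]

/-- the alive nonempty classes after setting `U` to one -/
noncomputable def alive (D : Finset ι → Prop) (a : Finset ι → ℝ) (U : Finset ι) :
    Finset (Finset ι) := by
  classical
  exact (univ : Finset (Finset ι)).filter fun W => W ≠ ∅ ∧ D (U ∪ W) ∧ res a U W ≠ 0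

theorem mem_alive {D : Finset ι → Prop} {a : Finset ι → ℝ} {U W : Finset ι} :
    W ∈ alive D a U ↔ W ≠ ∅ ∧ D (U ∪ W) ∧ res a U W ≠ 0 := by
  classical
  simp [alive]

/-- many classes ⇒ many clean monomials -/
theorem clean_many {D : Finset ι → Prop} (hdown : ∀ z z', z' ⊆ z → D z → D z')
    {a : Finset ι → ℝ} {M : Finset (Finset ι)} (hM : IsMon D a M) (U : Finset ι)
    (C : Finset (Finset ι)) (hC : ∀ S ∈ M, Clean D M U S → S ∈ C) :
    2 * (alive D a U).card ≤ M.card + C.card := by
  classical
  set A := alive D a U with hA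
  -- every class has a representative in `M`
  have hrep : ∀ W ∈ A, ∃ S ∈ M, S \ U = W := by
    intro W hW
    obtain ⟨h1, h2, h3⟩ := mem_alive.1 hW
    obtain ⟨S, hS1, hS2⟩ := exists_of_res_ne h3
    refine ⟨S, (hM.mem S).2 ⟨?_, hdown _ _ (subset_union_of_sdiff_eq hS1) h2, hS2⟩, hS1⟩
    rintro rfl
    rw [empty_sdiff] at hS1
    exact h1 hS1.symm
  set M' := M.filter (fun S => S \ U ∈ A) with hM'
  have hmaps : ∀ S ∈ M', S \ U ∈ A := fun S hS => (mem_filter.1 hS).2
  have hsum := Finset.card_eq_sum_card_fiberwise hmaps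
  -- every fibre has one element or at least two
  have hfib : ∀ W ∈ A, 2 ≤ (M'.filter fun S => S \ U = W).card +
      (C.filter fun S => S \ U = W).card := by
    intro W hW
    obtain ⟨S, hS, hSW⟩ := hrep W hW
    have hSM' : S ∈ M' := mem_filter.2 ⟨hS, hSW ▸ hW⟩
    by_cases huniq : ∀ S' ∈ M, S' \ U = W → S' = S
    · have hcl : Clean D M U S := by
        refine ⟨?_, ?_, fun S' hS' h => huniq S' hS' (h.trans hSW)⟩
        · rw [hSW]; exact (mem_alive.1 hW).1
        · have := (mem_alive.1 hW).2.1
          rw [← hSW, union_sdiff_self_eq_union] at this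
          exact this
      have hSC := hC S hS hcl
      have h1 : 1 ≤ (M'.filter fun S => S \ U = W).card :=
        card_pos.2 ⟨S, mem_filter.2 ⟨hSM', hSW⟩⟩
      have h2 : 1 ≤ (C.filter fun S => S \ U = W).card :=
        card_pos.2 ⟨S, mem_filter.2 ⟨hSC, hSW⟩⟩
      omega
    · push Not at huniq
      obtain ⟨S', hS', hSW', hne⟩ := huniq
      have : ({S', S} : Finset (Finset ι)) ⊆ M'.filter fun S => S \ U = W := by
        intro T hT
        rw [mem_insert, mem_singleton] at hT
        rcases hT with rfl | rfl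
        · exact mem_filter.2 ⟨mem_filter.2 ⟨hS', hSW' ▸ hW⟩, hSW'⟩
        · exact mem_filter.2 ⟨hSM', hSW⟩
      have h2 := card_le_card this
      rw [card_pair hne] at h2
      omega
  have h1 : ∑ W ∈ A, (C.filter fun S => S \ U = W).card ≤ C.card := by
    have hmaps' : ∀ S ∈ C.filter (fun S => S \ U ∈ A), S \ U ∈ A :=
      fun S hS => (mem_filter.1 hS).2
    have := Finset.card_eq_sum_card_fiberwise hmaps'
    calc ∑ W ∈ A, (C.filter fun S => S \ U = W).card
        = ∑ W ∈ A, ((C.filter (fun S => S \ U ∈ A)).filter fun S => S \ U = W).card := by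
          refine Finset.sum_congr rfl fun W hW => ?_
          congr 1
          ext S
          simp only [mem_filter]
          constructor
          · rintro ⟨h1, h2⟩; exact ⟨⟨h1, h2 ▸ hW⟩, h2⟩
          · rintro ⟨⟨h1, _⟩, h2⟩; exact ⟨h1, h2⟩
      _ = (C.filter (fun S => S \ U ∈ A)).card := this.symm
      _ ≤ C.card := card_le_card (filter_subset _ _)
  calc 2 * A.card = ∑ W ∈ A, 2 := by rw [Finset.sum_const, smul_eq_mul]; ring
    _ ≤ ∑ W ∈ A, ((M'.filter fun S => S \ U = W).card + (C.filter fun S => S \ U = W).card) :=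
        Finset.sum_le_sum hfib
    _ = M'.card + ∑ W ∈ A, (C.filter fun S => S \ U = W).card := by
        rw [Finset.sum_add_distrib, ← hsum]
    _ ≤ M.card + C.card := add_le_add (card_le_card (filter_subset _ _)) h1

theorem others_insertNth {n : ℕ} {M : Finset (Finset ι)} (j : Fin (n + 1)) (S : M)
    (R : Fin n → M) :
    others (fun i => ((j.insertNth S R : Fin (n + 1) → M) i : Finset ι)) j =
      (univ : Finset (Fin n)).biUnion fun i => (R i : Finset ι) := by
  ext x
  simp only [others, mem_biUnion, mem_erase, mem_univ, and_true, true_and]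
  constructor
  · rintro ⟨i, hi, hx⟩
    obtain ⟨k, rfl⟩ := Fin.exists_succAbove_eq hi
    rw [Fin.insertNth_apply_succAbove] at hx
    exact ⟨k, hx⟩
  · rintro ⟨k, hk⟩
    refine ⟨j.succAbove k, Fin.succAbove_ne j k, ?_⟩
    rw [Fin.insertNth_apply_succAbove]
    exact hk

theorem union_insertNth {n : ℕ} {M : Finset (Finset ι)} (j : Fin (n + 1)) (S : M)
    (R : Fin n → M) :
    ((univ : Finset (Fin (n+1))).biUnion
      fun i => ((j.insertNth S R : Fin (n + 1) → M) i : Finset ι)) =
      ((univ : Finset (Fin n)).biUnion fun i => (R i : Finset ι)) ∪ S := by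
  ext x
  simp only [mem_biUnion, mem_univ, true_and, mem_union]
  constructor
  · rintro ⟨i, hx⟩
    by_cases hi : i = j
    · subst hi
      rw [Fin.insertNth_apply_same] at hx
      exact Or.inr hx
    · obtain ⟨k, rfl⟩ := Fin.exists_succAbove_eq hi
      rw [Fin.insertNth_apply_succAbove] at hx
      exact Or.inl ⟨k, hx⟩
  · rintro (⟨k, hk⟩ | h)
    · refine ⟨j.succAbove k, ?_⟩
      rw [Fin.insertNth_apply_succAbove]
      exact hk
    · refine ⟨j, ?_⟩
      rw [Fin.insertNth_apply_same]
      exact h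

/-- Key lemma. -/
theorem key {D : Finset ι → Prop} (hdown : ∀ z z', z' ⊆ z → D z → D z')
    {a : Finset ι → ℝ} (hbool : ∀ z, D z → val a z = 0 ∨ val a z = 1)
    {M : Finset (Finset ι)} (hM : IsMon D a M) {t : ℕ} (ht : M.card < 2 ^ t)
    (hne : M.Nonempty) :
    ∃ R : Fin (4 * t ^ 2) → M, D (univ.biUnion fun i => (R i : Finset ι)) ∧
      4 * (alive D a (univ.biUnion fun i => (R i : Finset ι))).card ≤ 3 * M.card := by
  classical
  by_contra hcon
  push Not at hcon
  set n := 4 * t ^ 2 with hn
  let U : (Fin n → M) → Finset ι := fun R => univ.biUnion fun i => (R i : Finset ι)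
  let U' : (Fin (n + 1) → M) → Finset ι := fun T => univ.biUnion fun i => (T i : Finset ι)
  let cl : Finset ι → M → ℕ := fun V S => if Clean D M V S then 1 else 0
  -- total number of clean pairs
  have hcount : ∑ T : Fin (n + 1) → M, ∑ j, cl (others (fun i => (T i : Finset ι)) j) (T j)
      = (n + 1) * ∑ R : Fin n → M, ∑ S : M, cl (U R) S := by
    have hj : ∀ j : Fin (n + 1), ∑ T : Fin (n + 1) → M,
        cl (others (fun i => (T i : Finset ι)) j) (T j) = ∑ R : Fin n → M, ∑ S : M, cl (U R) S := by
      intro j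
      rw [← (Fin.insertNthEquiv (fun _ => (M : Type _)) j).sum_comp, Fintype.sum_prod_type_right]
      refine Finset.sum_congr rfl fun R _ => Finset.sum_congr rfl fun S _ => ?_
      have e1 : (Fin.insertNthEquiv (fun _ => (M : Type _)) j) (S, R) =
          (j.insertNth S R : Fin (n + 1) → M) := rfl
      rw [e1, others_insertNth, Fin.insertNth_apply_same]
    rw [Finset.sum_comm, Finset.sum_congr rfl (fun j _ => hj j), Finset.sum_const,
      Finset.card_univ, Fintype.card_fin, smul_eq_mul]
  -- lower bound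
  have hlow : ∀ R : Fin n → M, D (U R) → M.card + 1 ≤ 2 * ∑ S : M, cl (U R) S := by
    intro R hR
    have h1 := hcon R hR
    set C := (M.filter fun S => Clean D M (U R) S) with hC
    have h2 := clean_many hdown hM (U R) C (fun S hS h => mem_filter.2 ⟨hS, h⟩)
    have h3 : ∑ S : M, cl (U R) S = C.card := by
      rw [hC, Finset.card_filter, ← Finset.sum_coe_sort M]
    rw [h3]
    have h1' : 3 * M.card < 4 * (alive D a (U R)).card := h1
    omega
  -- upper bound
  have hup : ∀ T : Fin (n + 1) → M, ∑ j, cl (others (fun i => (T i : Finset ι)) j) (T j) ≤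
      if D (U' T) then 2 * t ^ 2 else 0 := by
    intro T
    split_ifs with hD
    · have : ∑ j, cl (others (fun i => (T i : Finset ι)) j) (T j) =
          (univ.filter fun j => Clean D M (others (fun i => (T i : Finset ι)) j) (T j)).card := by
        rw [Finset.card_filter]
      rw [this]
      refine clean_card_le hdown hbool hM ht (fun i => (T i : Finset ι)) (fun j => (T j).2) hD _ ?_
      intro j hj
      exact (mem_filter.1 hj).2
    · refine le_of_eq (Finset.sum_eq_zero fun j _ => ?_)
      simp only [cl]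
      rw [if_neg]
      intro hc
      refine hD (hdown _ _ ?_ hc.2.1)
      intro x hx
      obtain ⟨i, _, hi⟩ := mem_biUnion.1 hx
      by_cases hij : i = j
      · subst hij; exact mem_union_right _ hi
      · exact mem_union_left _ (mem_biUnion.2 ⟨i, mem_erase.2 ⟨hij, mem_univ i⟩, hi⟩)
  set 𝒟 := (univ : Finset (Fin n → M)).filter fun R => D (U R) with h𝒟
  have hup2 : ∑ T : Fin (n + 1) → M, (if D (U' T) then 2 * t ^ 2 else 0) ≤
      2 * t ^ 2 * (M.card * 𝒟.card) := by
    rw [← (Fin.insertNthEquiv (fun _ => (M : Type _)) 0).sum_comp, Fintype.sum_prod_type_right]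
    calc _ ≤ ∑ R : Fin n → M, ∑ S : M, (if D (U R) then 2 * t ^ 2 else 0) := by
          refine Finset.sum_le_sum fun R _ => Finset.sum_le_sum fun S _ => ?_
          have e1 : (Fin.insertNthEquiv (fun _ => (M : Type _)) 0) (S, R) =
            ((0 : Fin (n+1)).insertNth S R : Fin (n + 1) → M) := rfl
          rw [e1]
          by_cases h : D (U R)
          · rw [if_pos h]; split_ifs <;> simp
          · rw [if_neg h, if_neg]
            intro h'
            refine h (hdown _ _ ?_ h')
            simp only [U', union_insertNth]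
            exact subset_union_left
      _ = 2 * t ^ 2 * (M.card * 𝒟.card) := by
          simp only [Finset.sum_const, Finset.card_univ, Fintype.card_coe, smul_eq_mul]
          rw [← Finset.mul_sum, ← Finset.sum_filter, Finset.sum_const, smul_eq_mul]
          ring
  have h𝒟ne : 0 < 𝒟.card := by
    obtain ⟨S, hS⟩ := hne
    refine card_pos.2 ⟨fun _ => ⟨S, hS⟩, mem_filter.2 ⟨mem_univ _, ?_⟩⟩
    refine hdown S _ ?_ ((hM.mem S).1 hS).2.1
    intro x hx
    obtain ⟨_, _, h⟩ := mem_biUnion.1 hx
    exact h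
  have hlow2 : 𝒟.card * (M.card + 1) ≤ 2 * ∑ R : Fin n → M, ∑ S : M, cl (U R) S := by
    rw [Finset.mul_sum, ← smul_eq_mul, ← Finset.sum_const]
    calc ∑ _R ∈ 𝒟, (M.card + 1) ≤ ∑ R ∈ 𝒟, 2 * ∑ S : M, cl (U R) S :=
          Finset.sum_le_sum fun R hR => hlow R (mem_filter.1 hR).2
      _ ≤ _ := Finset.sum_le_sum_of_subset (subset_univ _)
  have hfin := (Finset.sum_le_sum fun T (_ : T ∈ (univ : Finset (Fin (n + 1) → M))) =>
    hup T).trans hup2
  rw [hcount] at hfin
  have h4 : (n + 1) * (𝒟.card * (M.card + 1)) ≤ 2 * (2 * t ^ 2 * (M.card * 𝒟.card)) :=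
    calc (n + 1) * (𝒟.card * (M.card + 1)) ≤
          (n + 1) * (2 * ∑ R : Fin n → M, ∑ S : M, cl (U R) S) := Nat.mul_le_mul le_rfl hlow2
      _ = 2 * ((n + 1) * ∑ R : Fin n → M, ∑ S : M, cl (U R) S) := by ring
      _ ≤ _ := Nat.mul_le_mul le_rfl hfin
  have h5' : ∀ d, 2 * (2 * t ^ 2 * (M.card * d)) = n * (d * M.card) := by
    intro d; rw [hn]; ring
  have h5 := h5' 𝒟.card
  rw [h5] at h4
  have h6 : n * (𝒟.card * M.card) ≤ n * (𝒟.card * (M.card + 1)) :=
    Nat.mul_le_mul le_rfl (Nat.mul_le_mul le_rfl (Nat.le_succ _))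
  have h7 : 0 < 𝒟.card * (M.card + 1) := Nat.mul_pos h𝒟ne (Nat.succ_pos _)
  nlinarith

end Pool.Agent.Lib_helper10.AndRank
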