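import Mathlib
import Pool.Agent.Lib_helper10.AndRank.Key

set_option autoImplicit false
set_option linter.unusedSectionVars false

/-! Large rectangles on which the value depends only on the column. -/

namespace Pool.Agent.Lib_helper10.AndRank

open Finset

/-- Remove all points satisfying some rare property: afterwards every property is either dead
or frequent. -/
theorem cleaning {α β : Type*} (X : Finset α) (𝒰 : Finset β) (P : β → α → Prop)
    [∀ u, DecidablePred (P u)] (N : ℕ) (hN : 𝒰.card ≤ N) (hN0 : 0 < N) :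
    ∃ X₀ ⊆ X, X.card ≤ 2 * X₀.card ∧
      ∀ u ∈ 𝒰, (∀ x ∈ X₀, ¬ P u x) ∨ X.card ≤ 2 * N * (X₀.filter (P u)).card := by
  classical
  set 𝒞 := 𝒰.powerset.filter (fun 𝒦 =>
    2 * N * (X.filter fun x => ∃ u ∈ 𝒦, P u x).card ≤ 𝒦.card * X.card) with h𝒞
  have h0 : ∅ ∈ 𝒞 := by simp [h𝒞]
  obtain ⟨𝒦, h𝒦, hmax⟩ := Finset.exists_max_image 𝒞 Finset.card ⟨∅, h0⟩
  obtain ⟨h𝒦1, h𝒦2⟩ := mem_filter.1 h𝒦
  have h𝒦U := mem_powerset.1 h𝒦1
  set X₀ := X.filter fun x => ¬ ∃ u ∈ 𝒦, P u x with hX₀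
  have hpart : (X.filter fun x => ∃ u ∈ 𝒦, P u x).card + X₀.card = X.card :=
    Finset.card_filter_add_card_filter_not _
  refine ⟨X₀, filter_subset _ _, ?_, fun u hu => ?_⟩
  · have h1 : 𝒦.card * X.card ≤ N * X.card :=
      Nat.mul_le_mul ((card_le_card h𝒦U).trans hN) le_rfl
    have h2 : N * (2 * (X.filter fun x => ∃ u ∈ 𝒦, P u x).card) ≤ N * X.card := by
      calc _ = 2 * N * (X.filter fun x => ∃ u ∈ 𝒦, P u x).card := by ring
        _ ≤ _ := h𝒦2.trans h1
    have h3 := Nat.le_of_mul_le_mul_left h2 hN0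
    omega
  · by_cases huK : u ∈ 𝒦
    · left
      intro x hx hP
      exact (mem_filter.1 hx).2 ⟨u, huK, hP⟩
    · right
      by_contra hcon
      push Not at hcon
      have hins : insert u 𝒦 ∈ 𝒞 := by
        rw [h𝒞, mem_filter, mem_powerset]
        refine ⟨insert_subset hu h𝒦U, ?_⟩
        rw [card_insert_of_notMem huK]
        have hsub : (X.filter fun x => ∃ v ∈ insert u 𝒦, P v x) ⊆
            (X.filter fun x => ∃ v ∈ 𝒦, P v x) ∪ X₀.filter (P u) := by
          intro x hx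
          obtain ⟨hx1, v, hv, hPv⟩ := mem_filter.1 hx
          by_cases hxK : ∃ v ∈ 𝒦, P v x
          · exact mem_union_left _ (mem_filter.2 ⟨hx1, hxK⟩)
          · refine mem_union_right _ (mem_filter.2 ⟨mem_filter.2 ⟨hx1, hxK⟩, ?_⟩)
            rcases mem_insert.1 hv with rfl | hv
            · exact hPv
            · exact absurd ⟨v, hv, hPv⟩ hxK
        have h1 := (card_le_card hsub).trans (card_union_le _ _)
        calc 2 * N * (X.filter fun x => ∃ v ∈ insert u 𝒦, P v x).card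
            ≤ 2 * N * ((X.filter fun x => ∃ v ∈ 𝒦, P v x).card + (X₀.filter (P u)).card) :=
              Nat.mul_le_mul le_rfl h1
          _ = 2 * N * (X.filter fun x => ∃ v ∈ 𝒦, P v x).card +
                2 * N * (X₀.filter (P u)).card := by ring
          _ ≤ 𝒦.card * X.card + X.card := add_le_add h𝒦2 hcon.le
          _ = (𝒦.card + 1) * X.card := by ring
      have := hmax _ hins
      rw [card_insert_of_notMem huK] at this
      omega

variable {ι : Type*} [DecidableEq ι] [Fintype ι]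

/-- down-closure of a family -/
def DX (X : Finset (Finset ι)) (z : Finset ι) : Prop := ∃ x ∈ X, z ⊆ x

theorem DX_down (X : Finset (Finset ι)) : ∀ z z', z' ⊆ z → DX X z → DX X z' := by
  rintro z z' h ⟨x, hx, hz⟩
  exact ⟨x, hx, h.trans hz⟩

/-- nonempty monomials in the down closure of `X` -/
noncomputable def monX (X : Finset (Finset ι)) (a : Finset ι → ℝ) : Finset (Finset ι) := by
  classical
  exact (univ : Finset (Finset ι)).filter fun S => S ≠ ∅ ∧ DX X S ∧ a S ≠ 0

theorem isMon_monX (X : Finset (Finset ι)) (a : Finset ι → ℝ) : IsMon (DX X) a (monX X a) := by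
  classical
  exact ⟨fun S => by simp [monX]⟩

theorem res_empty (a : Finset ι → ℝ) (W : Finset ι) : res a ∅ W = a W := by
  unfold res
  rw [Finset.sum_eq_single_of_mem W]
  · simp
  · intro S hS hne
    simp at hS
    exact absurd hS hne

theorem rect {Yt : Type*} {t : ℕ} : ∀ (j : ℕ) (X : Finset (Finset ι)) (Y : Finset Yt)
    (a : Yt → Finset ι → ℝ) (𝓜 : Finset (Finset ι)),
    𝓜.card < 2 ^ t → (∀ y ∈ Y, ∀ S, S ≠ ∅ → a y S ≠ 0 → S ∈ 𝓜) →
    (∀ y ∈ Y, ∀ z, DX X z → val (a y) z = 0 ∨ val (a y) z = 1) →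
    (∀ y ∈ Y, (monX X (a y)).card * 3 ^ j < 4 ^ j) →
    ∃ X' ⊆ X, ∃ Y' ⊆ Y, X.card ≤ 2 ^ ((4 * t ^ 3 + 1) * j) * X'.card ∧
      Y.card ≤ 2 ^ ((4 * t ^ 3 + 1) * j) * Y'.card ∧
      ∀ y ∈ Y', ∃ b, ∀ x ∈ X', val (a y) x = b := by
  intro j
  induction j with
  | zero =>
    intro X Y a 𝓜 h𝓜 hsup hbool hm
    refine ⟨X, Subset.rfl, Y, Subset.rfl, by simp, by simp, fun y hy => ⟨a y ∅, fun x hx => ?_⟩⟩
    have h0 : monX X (a y) = ∅ := by
      have := hm y hy
      simp at this
      exact this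
    unfold val
    refine Finset.sum_eq_single_of_mem ∅ (by simp) fun S hS hne => ?_
    by_contra hS'
    have : S ∈ monX X (a y) :=
      ((isMon_monX X (a y)).mem S).2 ⟨hne, ⟨x, hx, mem_powerset.1 hS⟩, hS'⟩
    rw [h0] at this
    simp at this
  | succ j ih =>
    intro X Y a 𝓜 h𝓜 hsup hbool hm
    classical
    rcases Y.eq_empty_or_nonempty with rfl | hYne
    · exact ⟨X, Subset.rfl, ∅, Subset.rfl, Nat.le_mul_of_pos_left _ (by positivity), by simp,
        by simp⟩
    set n := 4 * t ^ 2 with hn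
    set N := 2 ^ (t * n) with hN
    set 𝒰 := (univ : Finset (Fin n → 𝓜)).image
      (fun R => (univ : Finset (Fin n)).biUnion fun i => (R i : Finset ι)) with h𝒰
    have h𝒰card : 𝒰.card ≤ N := by
      calc 𝒰.card ≤ (univ : Finset (Fin n → 𝓜)).card := card_image_le
        _ = 𝓜.card ^ n := by simp
        _ ≤ (2 ^ t) ^ n := Nat.pow_le_pow_left h𝓜.le n
        _ = N := (pow_mul 2 t n).symm
    have hNpos : 0 < N := by rw [hN]; positivity
    obtain ⟨X₀, hX₀X, hX₀card, hX₀⟩ := cleaning X 𝒰 (fun u x => u ⊆ x) N h𝒰card hNpos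
    -- choice of `U y`
    have hchoice : ∀ y ∈ Y, ∃ U ∈ insert ∅ 𝒰, (U = ∅ ∨ DX X₀ U) ∧
        4 * (alive (DX X₀) (a y) U).card ≤ 3 * (monX X (a y)).card := by
      intro y hy
      have hmon : monX X₀ (a y) ⊆ monX X (a y) := by
        intro S hS
        obtain ⟨h1, ⟨x, hx, h2⟩, h3⟩ := ((isMon_monX X₀ (a y)).mem S).1 hS
        exact ((isMon_monX X (a y)).mem S).2 ⟨h1, ⟨x, hX₀X hx, h2⟩, h3⟩
      have hbool₀ : ∀ z, DX X₀ z → val (a y) z = 0 ∨ val (a y) z = 1 := by
        rintro z ⟨x, hx, hz⟩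
        exact hbool y hy z ⟨x, hX₀X hx, hz⟩
      have hmon𝓜 : monX X₀ (a y) ⊆ 𝓜 := by
        intro S hS
        obtain ⟨h1, _, h3⟩ := ((isMon_monX X₀ (a y)).mem S).1 hS
        exact hsup y hy S h1 h3
      rcases (monX X₀ (a y)).eq_empty_or_nonempty with he | hne
      · refine ⟨∅, mem_insert_self _ _, Or.inl rfl, ?_⟩
        have : alive (DX X₀) (a y) ∅ = ∅ := by
          rw [eq_empty_iff_forall_notMem]
          intro W hW
          obtain ⟨h1, h2, h3⟩ := mem_alive.1 hW
          rw [res_empty] at h3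
          rw [empty_union] at h2
          have : W ∈ monX X₀ (a y) := ((isMon_monX X₀ (a y)).mem W).2 ⟨h1, h2, h3⟩
          rw [he] at this
          simp at this
        rw [this]
        simp
      · obtain ⟨R, hR1, hR2⟩ := key (DX_down X₀) hbool₀ (isMon_monX X₀ (a y))
          (lt_of_le_of_lt (card_le_card hmon𝓜) h𝓜) hne
        refine ⟨_, mem_insert_of_mem ?_, Or.inr hR1, hR2.trans ?_⟩
        · rw [h𝒰, mem_image]
          exact ⟨fun i => ⟨(R i : Finset ι), hmon𝓜 (R i).2⟩, mem_univ _, rfl⟩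
        · exact Nat.mul_le_mul le_rfl (card_le_card hmon)
    choose! Uf hUf1 hUf2 hUf3 using hchoice
    -- the most popular value
    obtain ⟨U, hU𝒰, hUmax⟩ := Finset.exists_max_image (insert ∅ 𝒰)
      (fun U => (Y.filter fun y => Uf y = U).card) ⟨∅, mem_insert_self _ _⟩
    set Y₁ := Y.filter fun y => Uf y = U with hY₁
    have hY₁card : Y.card ≤ 2 * N * Y₁.card := by
      have h1 : Y.card ≤ (insert ∅ 𝒰).card * Y₁.card := by
        rw [Finset.card_eq_sum_card_fiberwise (f := Uf) (t := insert ∅ 𝒰)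
          (fun y hy => hUf1 y hy)]
        calc _ ≤ ∑ _U' ∈ insert ∅ 𝒰, Y₁.card := Finset.sum_le_sum fun U' hU' => hUmax U' hU'
          _ = _ := by rw [Finset.sum_const, smul_eq_mul]
      refine h1.trans (Nat.mul_le_mul ?_ le_rfl)
      have := card_insert_le (∅ : Finset ι) 𝒰
      omega
    have hY₁ne : Y₁.Nonempty := by
      by_contra h
      rw [not_nonempty_iff_eq_empty] at h
      rw [h] at hY₁card
      simp at hY₁card
      exact hYne.ne_empty hY₁card
    set X₁ := X₀.filter fun x => U ⊆ x with hX₁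
    have hX₁card : X.card ≤ 2 * N * X₁.card := by
      obtain ⟨y, hy⟩ := hY₁ne
      obtain ⟨hyY, hyU⟩ := mem_filter.1 hy
      have h2 := hUf2 y hyY
      rw [hyU] at h2
      by_cases hU0 : U = ∅
      · have : X₁ = X₀ := by rw [hX₁, hU0]; simp
        rw [this]
        refine hX₀card.trans (Nat.mul_le_mul ?_ le_rfl)
        omega
      · have hU𝒰' : U ∈ 𝒰 := (mem_insert.1 hU𝒰).resolve_left hU0
        rcases h2 with h2 | ⟨x, hx, hUx⟩
        · exact absurd h2 hU0
        · rcases hX₀ U hU𝒰' with h | h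
          · exact absurd hUx (h x hx)
          · exact h
    have hX₁X : X₁ ⊆ X := (filter_subset _ _).trans hX₀X
    have hUX₁ : ∀ x ∈ X₁, U ⊆ x := fun x hx => (mem_filter.1 hx).2
    obtain ⟨X', hX', Y', hY', hXc, hYc, hval⟩ := ih X₁ Y₁ (fun y => res (a y) U)
      (𝓜.image fun S => S \ U) (lt_of_le_of_lt card_image_le h𝓜) (by
        intro y hy W hW hne
        obtain ⟨S, hS1, hS2⟩ := exists_of_res_ne hne
        refine mem_image.2 ⟨S, hsup y (mem_filter.1 hy).1 S ?_ hS2, hS1⟩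
        rintro rfl
        rw [empty_sdiff] at hS1
        exact hW hS1.symm) (by
        rintro y hy z ⟨x, hx, hz⟩
        rw [val_res]
        exact hbool y (mem_filter.1 hy).1 _ ⟨x, hX₁X hx, union_subset (hUX₁ x hx) hz⟩) (by
        intro y hy
        obtain ⟨hyY, hyU⟩ := mem_filter.1 hy
        have h3 := hUf3 y hyY
        rw [hyU] at h3
        have h4 : (monX X₁ (res (a y) U)).card ≤ (alive (DX X₀) (a y) U).card := by
          refine card_le_card fun W hW => ?_
          obtain ⟨h1, ⟨x, hx, h2⟩, h3⟩ := ((isMon_monX X₁ (res (a y) U)).mem W).1 hW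
          exact mem_alive.2 ⟨h1, ⟨x, (mem_filter.1 hx).1, union_subset (hUX₁ x hx) h2⟩, h3⟩
        have h5 := hm y hyY
        rw [pow_succ, pow_succ] at h5
        have h6 : 4 * ((monX X₁ (res (a y) U)).card * 3 ^ j) ≤
            (monX X (a y)).card * (3 ^ j * 3) := by
          calc 4 * ((monX X₁ (res (a y) U)).card * 3 ^ j)
              = (4 * (monX X₁ (res (a y) U)).card) * 3 ^ j := by ring
            _ ≤ (3 * (monX X (a y)).card) * 3 ^ j := Nat.mul_le_mul (by omega) le_rfl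
            _ = _ := by ring
        omega)
    have he : 2 ^ ((4 * t ^ 3 + 1) * (j + 1)) = 2 * N * 2 ^ ((4 * t ^ 3 + 1) * j) := by
      rw [hN, hn, mul_add, mul_one, pow_add, pow_succ 2 (4 * t ^ 3)]
      have : t * (4 * t ^ 2) = 4 * t ^ 3 := by ring
      rw [this]; ring
    refine ⟨X', hX'.trans hX₁X, Y', hY'.trans (filter_subset _ _), ?_, ?_, ?_⟩
    · rw [he]
      calc X.card ≤ 2 * N * X₁.card := hX₁card
        _ ≤ 2 * N * (2 ^ ((4 * t ^ 3 + 1) * j) * X'.card) := Nat.mul_le_mul le_rfl hXc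
        _ = _ := by ring
    · rw [he]
      calc Y.card ≤ 2 * N * Y₁.card := hY₁card
        _ ≤ 2 * N * (2 ^ ((4 * t ^ 3 + 1) * j) * Y'.card) := Nat.mul_le_mul le_rfl hYc
        _ = _ := by ring
    · intro y hy
      obtain ⟨b, hb⟩ := hval y hy
      refine ⟨b, fun x hx => ?_⟩
      have h1 := hb x hx
      rw [val_res] at h1
      rw [union_eq_right.2 (hUX₁ x (hX' hx))] at h1
      exact h1

end Pool.Agent.Lib_helper10.AndRank
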