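import Mathlib
import Pool.Agent.Lib_helper10.AndRank.NW
import Pool.Agent.Lib_helper10.AndRank.Rect

set_option autoImplicit false
set_option linter.unusedSectionVars false

/-! A protocol for evaluating sparse Boolean functions. -/

namespace Pool.Agent.Lib_helper10.AndRank

open Finset Pool.Agent.Lib_helper10.LogRank

/-- precomposition -/
def comapProt {X Y X' Y' : Type} (α : X → X') (β : Y → Y') : Protocol X' Y' → Protocol X Y
  | Protocol.leaf b => Protocol.leaf b
  | Protocol.alice s t₀ t₁ => Protocol.alice (fun x => s (α x)) (comapProt α β t₀) (comapProt α β t₁)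
  | Protocol.bob s t₀ t₁ => Protocol.bob (fun y => s (β y)) (comapProt α β t₀) (comapProt α β t₁)

theorem comapProt_cost {X Y X' Y' : Type} (α : X → X') (β : Y → Y') (π : Protocol X' Y') :
    (comapProt α β π).cost = π.cost := by
  induction π with
  | leaf b => rfl
  | alice s t₀ t₁ h₀ h₁ => simp [comapProt, Protocol.cost, h₀, h₁]
  | bob s t₀ t₁ h₀ h₁ => simp [comapProt, Protocol.cost, h₀, h₁]

theorem comapProt_eval {X Y X' Y' : Type} (α : X → X') (β : Y → Y') (π : Protocol X' Y') (x : X)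
    (y : Y) : (comapProt α β π).eval x y = π.eval (α x) (β y) := by
  induction π with
  | leaf b => rfl
  | alice s t₀ t₁ h₀ h₁ => simp [comapProt, Protocol.eval, h₀, h₁]
  | bob s t₀ t₁ h₀ h₁ => simp [comapProt, Protocol.eval, h₀, h₁]

theorem CCOn.comap {X Y X' Y' : Type} {R : X' → Y' → Prop} {F : X' → Y' → Bool} {c : ℕ}
    (α : X → X') (β : Y → Y') (h : CCOn R F c) :
    CCOn (fun x y => R (α x) (β y)) (fun x y => F (α x) (β y)) c := by
  obtain ⟨π, h1, h2⟩ := h
  exact ⟨comapProt α β π, by rw [comapProt_cost]; exact h1,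
    fun x y hxy => by rw [comapProt_eval]; exact h2 _ _ hxy⟩

section reps

variable {P Q : Type} [DecidableEq P] [DecidableEq Q] [Fintype Q]

/-- a matrix of rank `≤ r` has at most `2^r` different columns -/
theorem reps (G : P → Q → Bool) (A : Finset P) (B : Finset Q) {r : ℕ} (h : rk G A B ≤ r) :
    ∃ ρ : Q → Q, (∀ y ∈ B, ρ y ∈ B ∧ ∀ x ∈ A, G x (ρ y) = G x y) ∧
      (B.image ρ).card ≤ 2 ^ r := by
  classical
  obtain ⟨T, hT1, hT2, hT3, -⟩ := Submodule.exists_finset_span_eq_linearIndepOn ℝ (vec G B '' (A : Set P))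
  let sig : Q → Finset (Q → ℝ) := fun y => T.filter fun v => v y = 1
  have hv01 : ∀ v ∈ T, ∀ y, v y = 0 ∨ v y = 1 := by
    intro v hv y
    obtain ⟨x, _, rfl⟩ := hT1 hv
    simp only [vec]
    split_ifs
    · right; rfl
    · left; rfl
  have hsig : ∀ y y', sig y = sig y' → y ∈ B → y' ∈ B → ∀ x ∈ A, G x y = G x y' := by
    intro y y' hs hy hy' x hx
    have hT : ∀ v ∈ T, v y = v y' := by
      intro v hv
      have h1 : v ∈ sig y ↔ v ∈ sig y' := by rw [hs]
      simp only [sig, mem_filter, hv, true_and] at h1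
      rcases hv01 v hv y with h2 | h2 <;> rcases hv01 v hv y' with h3 | h3
      · rw [h2, h3]
      · exact absurd (h1.2 h3) (by rw [h2]; norm_num)
      · exact absurd (h1.1 h2) (by rw [h3]; norm_num)
      · rw [h2, h3]
    have hspan : ∀ v ∈ Submodule.span ℝ (T : Set (Q → ℝ)), v y = v y' := by
      intro v hv
      induction hv using Submodule.span_induction with
      | mem v hv => exact hT v hv
      | zero => rfl
      | add u v _ _ hu hv => simp [hu, hv]
      | smul c v _ hv => simp [hv]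
    have hx' : vec G B x ∈ Submodule.span ℝ (T : Set (Q → ℝ)) := by
      rw [hT3]
      exact Submodule.subset_span ⟨x, hx, rfl⟩
    have := hspan _ hx'
    simp only [vec, hy, hy', true_and] at this
    cases h1 : G x y <;> cases h2 : G x y' <;> simp [h1, h2] at this ⊢
  let pick : Finset (Q → ℝ) → Q → Q := fun s y =>
    if h : ∃ y' ∈ B, sig y' = s then h.choose else y
  refine ⟨fun y => pick (sig y) y, ?_, ?_⟩
  · intro y hy
    have hex : ∃ y' ∈ B, sig y' = sig y := ⟨y, hy, rfl⟩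
    have hp : pick (sig y) y = hex.choose := by simp only [pick, dif_pos hex]
    obtain ⟨h1, h2⟩ := hex.choose_spec
    simp only [hp]
    exact ⟨h1, fun x hx => hsig _ _ h2 h1 hy x hx⟩
  · rcases B.eq_empty_or_nonempty with rfl | ⟨y₀, hy₀⟩
    · simp
    · calc (B.image fun y => pick (sig y) y).card
          ≤ (T.powerset.image fun s => pick s y₀).card := by
            refine card_le_card fun z hz => ?_
            obtain ⟨y, hy, rfl⟩ := mem_image.1 hz
            refine mem_image.2 ⟨sig y, mem_powerset.2 (filter_subset _ _), ?_⟩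
            have hex : ∃ y' ∈ B, sig y' = sig y := ⟨y, hy, rfl⟩
            simp only [pick, dif_pos hex]
        _ ≤ T.powerset.card := card_image_le
        _ = 2 ^ T.card := card_powerset _
        _ ≤ 2 ^ r := Nat.pow_le_pow_right (by norm_num) (by rw [hT2]; exact h)

end reps

theorem rk_le_of_sum {P Q I : Type} [DecidableEq P] [DecidableEq Q] [Fintype Q]
    (G : P → Q → Bool) (A : Finset P) (B : Finset Q) (s : Finset I) (α : P → I → ℝ)
    (w : I → Q → ℝ) (h : ∀ x ∈ A, vec G B x = ∑ i ∈ s, α x i • w i) : rk G A B ≤ s.card := by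
  classical
  unfold rk
  calc _ ≤ Module.finrank ℝ (Submodule.span ℝ ((s.image w : Finset (Q → ℝ)) : Set (Q → ℝ))) := by
        refine Submodule.finrank_mono (Submodule.span_le.2 ?_)
        rintro _ ⟨x, hx, rfl⟩
        rw [SetLike.mem_coe, h x hx]
        refine Submodule.sum_mem _ fun i hi => Submodule.smul_mem _ _ (Submodule.subset_span ?_)
        simp only [coe_image, Set.mem_image, mem_coe]
        exact ⟨i, hi, rfl⟩
    _ ≤ (s.image w).card := finrank_span_finset_le_card _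
    _ ≤ s.card := card_image_le

variable {ι : Type} [DecidableEq ι] [Fintype ι]

theorem core {Yt : Type} [Fintype Yt] [DecidableEq Yt] {t : ℕ} (𝒳 : Finset (Finset ι))
    (𝒴 : Finset Yt) (a : Yt → Finset ι → ℝ) (𝓜 : Finset (Finset ι)) (h𝓜 : 𝓜.card < 2 ^ t)
    (hsup : ∀ y ∈ 𝒴, ∀ S, S ≠ ∅ → a y S ≠ 0 → S ∈ 𝓜)
    (hbool : ∀ y ∈ 𝒴, ∀ z, DX 𝒳 z → val (a y) z = 0 ∨ val (a y) z = 1)
    (G : Finset ι → Yt → Bool)
    (hG : ∀ x ∈ 𝒳, ∀ y ∈ 𝒴, (if G x y = true then (1 : ℝ) else 0) = val (a y) x) :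
    CCOn (fun x y => x ∈ 𝒳 ∧ y ∈ 𝒴) G
      (t * (2 * ((4 * t ^ 3 + 1) * (3 * t) + t + 3)) + 2) := by
  classical
  set q := (4 * t ^ 3 + 1) * (3 * t) with hq
  -- the value as a sum over `insert ∅ 𝓜`
  have hval : ∀ y ∈ 𝒴, ∀ x, val (a y) x =
      ∑ S ∈ insert ∅ 𝓜, (if S ⊆ x then (1 : ℝ) else 0) * a y S := by
    intro y hy x
    unfold val
    rw [← Finset.sum_filter_ne_zero]
    symm
    rw [← Finset.sum_filter_ne_zero]
    have e : (filter (fun S => (if S ⊆ x then (1 : ℝ) else 0) * a y S ≠ 0) (insert ∅ 𝓜)) =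
        filter (fun S => a y S ≠ 0) x.powerset := by
      ext S
      simp only [mem_filter, mem_insert, mem_powerset]
      constructor
      · rintro ⟨_, h2⟩
        by_cases hS : S ⊆ x
        · simp only [hS, if_true, one_mul] at h2
          exact ⟨hS, h2⟩
        · simp [hS] at h2
      · rintro ⟨h1, h2⟩
        refine ⟨?_, by simp [h1, h2]⟩
        by_cases hS : S = ∅
        · exact Or.inl hS
        · exact Or.inr (hsup y hy S hS h2)
    rw [e]
    refine Finset.sum_congr rfl fun S hS => ?_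
    rw [if_pos (mem_powerset.1 (mem_filter.1 hS).1), one_mul]
  have hcard1 : (insert ∅ 𝓜).card ≤ 2 ^ t := by
    have := card_insert_le (∅ : Finset ι) 𝓜
    omega
  have hrk1 : rk G 𝒳 𝒴 ≤ 2 ^ t := by
    refine (rk_le_of_sum G 𝒳 𝒴 (insert ∅ 𝓜) (fun x S => if S ⊆ x then (1 : ℝ) else 0)
      (fun S y => if y ∈ 𝒴 then a y S else 0) ?_).trans hcard1
    intro x hx
    ext y
    rw [Finset.sum_apply]
    simp only [Pi.smul_apply, smul_eq_mul, vec]
    by_cases hy : y ∈ 𝒴
    · simp only [hy, true_and, if_true]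
      rw [hG x hx y hy, hval y hy x]
    · simp [hy]
  have hrk2 : rk (fun (y : Yt) (x : Finset ι) => G x y) 𝒴 𝒳 ≤ 2 ^ t := by
    refine (rk_le_of_sum (fun (y : Yt) (x : Finset ι) => G x y) 𝒴 𝒳 (insert ∅ 𝓜)
      (fun y S => a y S)
      (fun S x => if x ∈ 𝒳 ∧ S ⊆ x then (1 : ℝ) else 0) ?_).trans hcard1
    intro y hy
    ext x
    rw [Finset.sum_apply]
    simp only [Pi.smul_apply, smul_eq_mul, vec]
    by_cases hx : x ∈ 𝒳
    · simp only [hx, true_and]
      rw [hG x hx y hy, hval y hy x]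
      exact Finset.sum_congr rfl fun S _ => mul_comm _ _
    · simp [hx]
  obtain ⟨ρQ, hρQ, hρQc⟩ := reps G 𝒳 𝒴 hrk1
  obtain ⟨ρP, hρP, hρPc⟩ := reps (fun (y : Yt) (x : Finset ι) => G x y) 𝒴 𝒳 hrk2
  set A₀ := 𝒳.image ρP with hA₀
  set B₀ := 𝒴.image ρQ with hB₀
  have hA₀𝒳 : A₀ ⊆ 𝒳 := by
    intro z hz
    obtain ⟨x, hx, rfl⟩ := mem_image.1 hz
    exact (hρP x hx).1
  have hB₀𝒴 : B₀ ⊆ 𝒴 := by
    intro z hz
    obtain ⟨y, hy, rfl⟩ := mem_image.1 hz
    exact (hρQ y hy).1
  have hgood : Good G A₀ B₀ q := by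
    intro A hA B hB
    obtain ⟨A', hA', B', hB', hc1, hc2, hconst⟩ := rect (t := t) (3 * t) A B a 𝓜 h𝓜
      (fun y hy => hsup y (hB₀𝒴 (hB hy)))
      (by
        rintro y hy z ⟨x, hx, hz⟩
        exact hbool y (hB₀𝒴 (hB hy)) z ⟨x, hA₀𝒳 (hA hx), hz⟩)
      (by
        intro y hy
        have h1 : (monX A (a y)).card ≤ 𝓜.card := by
          refine card_le_card fun S hS => ?_
          obtain ⟨h1, _, h3⟩ := ((isMon_monX A (a y)).mem S).1 hS
          exact hsup y (hB₀𝒴 (hB hy)) S h1 h3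
        have h2 : (monX A (a y)).card < 2 ^ t := lt_of_le_of_lt h1 h𝓜
        have h3 : (2 : ℕ) ^ t * 3 ^ (3 * t) ≤ 4 ^ (3 * t) := by
          rw [pow_mul, pow_mul, ← mul_pow]
          exact Nat.pow_le_pow_left (by norm_num) t
        exact lt_of_lt_of_le (Nat.mul_lt_mul_of_pos_right h2 (by positivity)) h3)
    refine ⟨A', hA', B', hB', hc1, hc2, rk_le_one fun y hy => ?_⟩
    obtain ⟨b, hb⟩ := hconst y hy
    refine ⟨decide (b = 1), fun x hx => ?_⟩
    have h1 := hG x (hA₀𝒳 (hA (hA' hx))) y (hB₀𝒴 (hB (hB' hy)))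
    rw [hb x hx] at h1
    cases hGxy : G x y
    · simp [hGxy] at h1
      simp [← h1]
    · simp [hGxy] at h1
      simp [← h1]
  have hrk3 : rk G A₀ B₀ ≤ 2 ^ t :=
    ((rk_mono_left G hA₀𝒳 B₀).trans (rk_mono_right G 𝒳 hB₀𝒴)).trans hrk1
  have hw : 2 ^ q * (2 ^ t + 1) + 2 ^ q * (2 ^ t + 1) < 2 ^ (q + t + 3) := by
    have e : 2 ^ (q + t + 3) = 2 ^ q * (2 ^ t * 8) := by rw [pow_add, pow_add]; ring
    rw [e, ← Nat.mul_add]
    refine Nat.mul_lt_mul_of_pos_left ?_ (by positivity)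
    have : 1 ≤ 2 ^ t := Nat.one_le_two_pow
    omega
  have hph := phases hgood (size_bound q (2 ^ t) _ hρPc) (size_bound q (2 ^ t) _ hρQc) hw t A₀ B₀
    Subset.rfl Subset.rfl hrk3
  have hcm := CCOn.comap ρP ρQ hph
  have hcm2 := hcm.mono (R' := fun x y => x ∈ 𝒳 ∧ y ∈ 𝒴) (fun x y hxy =>
    ⟨mem_image_of_mem _ hxy.1, mem_image_of_mem _ hxy.2⟩) le_rfl
  refine hcm2.congr fun x y hxy => ?_
  have h1 := (hρP x hxy.1).2 (ρQ y) (hρQ y hxy.2).1
  have h2 := (hρQ y hxy.2).2 x hxy.1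
  exact h1.trans h2

end Pool.Agent.Lib_helper10.AndRank
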