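import Mathlib
import Pool.Agent.Lib_helper10.AndRank.Core

set_option autoImplicit false
set_option linter.unusedSectionVars false

/-! Meet functions on locally distributive families of sets: log-rank. -/

namespace Pool.Agent.Lib_helper10.AndRank

open Finset Pool.Agent.Lib_helper10.LogRank

variable {ι : Type} [DecidableEq ι] [Fintype ι]

/-- Möbius inversion on the family `ℱ` -/
noncomputable def alpha (ℱ : Finset (Finset ι)) (g : Finset ι → ℝ) (S : Finset ι) : ℝ :=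
  g S - ∑ T ∈ (ℱ.filter (fun T => T ⊂ S)).attach, alpha ℱ g T.1
termination_by S.card
decreasing_by exact Finset.card_lt_card (mem_filter.1 T.2).2

theorem alpha_eq (ℱ : Finset (Finset ι)) (g : Finset ι → ℝ) (S : Finset ι) :
    alpha ℱ g S = g S - ∑ T ∈ ℱ.filter (fun T => T ⊂ S), alpha ℱ g T := by
  rw [alpha, Finset.sum_attach _ (fun T => alpha ℱ g T)]

theorem sum_alpha (ℱ : Finset (Finset ι)) (g : Finset ι → ℝ) {v : Finset ι} (hv : v ∈ ℱ) :
    ∑ S ∈ ℱ.filter (fun S => S ⊆ v), alpha ℱ g S = g v := by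
  have h : ℱ.filter (fun S => S ⊆ v) = insert v (ℱ.filter (fun S => S ⊂ v)) := by
    ext S
    simp only [mem_filter, mem_insert]
    constructor
    · rintro ⟨h1, h2⟩
      rcases eq_or_ssubset_of_subset h2 with h | h
      · exact Or.inl h
      · exact Or.inr ⟨h1, h⟩
    · rintro (rfl | ⟨h1, h2⟩)
      · exact ⟨hv, Subset.rfl⟩
      · exact ⟨h1, h2.1⟩
  rw [h, Finset.sum_insert (by simp), alpha_eq ℱ g v]
  ring

/-- evaluation below a member of the family -/
theorem sum_alpha_below {ℱ : Finset (Finset ι)}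
    (hunion : ∀ C ∈ ℱ, ∀ A ∈ ℱ, ∀ B ∈ ℱ, A ⊆ C → B ⊆ C → A ∪ B ∈ ℱ)
    (g : Finset ι → ℝ) (hg : ∀ v, g v = 0 ∨ g v = 1) {x z : Finset ι} (hx : x ∈ ℱ) (hz : z ⊆ x) :
    (∑ S ∈ ℱ.filter (fun S => S ⊆ z), alpha ℱ g S = 0) ∨
      (∑ S ∈ ℱ.filter (fun S => S ⊆ z), alpha ℱ g S = 1) := by
  rcases (ℱ.filter (fun S => S ⊆ z)).eq_empty_or_nonempty with h | h
  · rw [h]; simp
  · set z' := (ℱ.filter (fun S => S ⊆ z)).sup' h id with hz'
    have hp : z' ∈ ℱ ∧ z' ⊆ z := by
      refine Finset.sup'_induction (p := fun S => S ∈ ℱ ∧ S ⊆ z) h id ?_ ?_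
      · rintro A ⟨hA1, hA2⟩ B ⟨hB1, hB2⟩
        exact ⟨hunion x hx A hA1 B hB1 (hA2.trans hz) (hB2.trans hz), union_subset hA2 hB2⟩
      · intro S hS
        exact mem_filter.1 hS
    have : ℱ.filter (fun S => S ⊆ z) = ℱ.filter (fun S => S ⊆ z') := by
      ext S
      simp only [mem_filter]
      constructor
      · rintro ⟨h1, h2⟩
        refine ⟨h1, ?_⟩
        exact Finset.le_sup' (f := id) (mem_filter.2 ⟨h1, h2⟩)
      · rintro ⟨h1, h2⟩
        exact ⟨h1, h2.trans hp.2⟩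
    rw [this, sum_alpha ℱ g hp.1]
    exact hg z'

section rank

variable (ℱ : Finset (Finset ι))

/-- indicator vector of the upper set of `S` -/
noncomputable def zvec (S : ℱ) : ℱ → ℝ := fun x => if (S : Finset ι) ⊆ x then 1 else 0

theorem zvec_linearIndependent : LinearIndependent ℝ (zvec ℱ) := by
  rw [Fintype.linearIndependent_iff]
  intro c hc
  by_contra hcon
  push Not at hcon
  obtain ⟨i, hi⟩ := hcon
  obtain ⟨S, hS, hmin⟩ := Finset.exists_min_image ((univ : Finset ℱ).filter fun S => c S ≠ 0)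
    (fun S => (S : Finset ι).card) ⟨i, by simp [hi]⟩
  have hcS := (mem_filter.1 hS).2
  have h1 := congrFun hc S
  rw [Finset.sum_apply] at h1
  simp only [Pi.smul_apply, smul_eq_mul, Pi.zero_apply, zvec] at h1
  rw [Finset.sum_eq_single_of_mem S (mem_univ _)] at h1
  · simp at h1
    exact hcS h1
  · intro T _ hne
    by_cases hcT : c T = 0
    · simp [hcT]
    · by_cases hTS : (T : Finset ι) ⊆ S
      · exfalso
        have h2 := hmin T (by simp [hcT])
        have h3 : (T : Finset ι) ⊂ S := by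
          rw [Finset.ssubset_iff_subset_ne]
          exact ⟨hTS, fun h => hne (Subtype.ext h)⟩
        have := card_lt_card h3
        omega
      · simp [hTS]

end rank

theorem card_le_realRank {Q : Type} [Fintype Q] (ℱ : Finset (Finset ι))
    (hinter : ∀ A ∈ ℱ, ∀ B ∈ ℱ, A ∩ B ∈ ℱ) (f : Q → Finset ι → Bool)
    (𝓜 : Finset (Finset ι)) (h𝓜 : ∀ S ∈ 𝓜, S ∈ ℱ ∧ ∃ q : Q,
      alpha ℱ (fun v => if f q v = true then 1 else 0) S ≠ 0) :
    𝓜.card ≤ realRank (fun (x : ℱ) (p : Q × ℱ) => f p.1 ((x : Finset ι) ∩ p.2)) := by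
  classical
  set g : Q → Finset ι → ℝ := fun q v => if f q v = true then 1 else 0 with hg
  set A : Matrix ℱ (Q × ℱ) ℝ := Matrix.of fun (x : ℱ) (p : Q × ℱ) =>
    if f p.1 ((x : Finset ι) ∩ p.2) = true then (1 : ℝ) else 0 with hA
  have hrank : realRank (fun (x : ℱ) (p : Q × ℱ) => f p.1 ((x : Finset ι) ∩ p.2)) = A.rank := rfl
  rw [hrank, Matrix.rank_eq_finrank_span_cols]
  -- columns
  have hcol : ∀ (q : Q) (S : ℱ), A.col (q, S) =
      ∑ T ∈ (univ : Finset ℱ).filter (fun T : ℱ => (T : Finset ι) ⊆ S),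
        alpha ℱ (g q) T • zvec ℱ T := by
    intro q S
    ext x
    rw [Finset.sum_apply]
    simp only [Pi.smul_apply, smul_eq_mul, zvec, mul_ite, mul_one, mul_zero]
    rw [← Finset.sum_filter, Finset.filter_filter]
    have h1 : A.col (q, S) x = g q ((x : Finset ι) ∩ S) := rfl
    rw [h1, ← sum_alpha ℱ (g q) (hinter x x.2 S S.2), Finset.sum_filter, Finset.sum_filter,
      ← Finset.sum_coe_sort ℱ]
    refine Finset.sum_congr rfl fun T _ => ?_
    simp only [Finset.subset_inter_iff, and_comm]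
  have hspan : ∀ (n : ℕ) (q : Q) (S : ℱ), (S : Finset ι).card = n →
      alpha ℱ (g q) S • zvec ℱ S ∈ Submodule.span ℝ (Set.range A.col) := by
    intro n
    induction n using Nat.strong_induction_on with
    | _ n ih =>
      intro q S hS
      have h1 := hcol q S
      rw [← Finset.add_sum_erase _ _ (mem_filter.2 ⟨mem_univ S, Subset.rfl⟩)] at h1
      have h2 : alpha ℱ (g q) S • zvec ℱ S = A.col (q, S) -
          ∑ T ∈ ((univ : Finset ℱ).filter (fun T : ℱ => (T : Finset ι) ⊆ S)).erase S,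
            alpha ℱ (g q) T • zvec ℱ T := by
        rw [h1]; abel
      rw [h2]
      refine Submodule.sub_mem _ (Submodule.subset_span ⟨_, rfl⟩) (Submodule.sum_mem _ ?_)
      intro T hT
      rw [mem_erase, mem_filter] at hT
      refine ih (T : Finset ι).card ?_ q T rfl
      rw [← hS]
      refine card_lt_card ?_
      rw [Finset.ssubset_iff_subset_ne]
      exact ⟨hT.2.2, fun h => hT.1 (Subtype.ext h)⟩
  -- independent subfamily
  have hind : LinearIndependent ℝ (fun S : 𝓜 => zvec ℱ ⟨(S : Finset ι), (h𝓜 S S.2).1⟩) := by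
    refine (zvec_linearIndependent ℱ).comp
      (fun S : 𝓜 => (⟨(S : Finset ι), (h𝓜 S S.2).1⟩ : ℱ)) ?_
    intro S T hST
    have := congrArg Subtype.val hST
    exact Subtype.ext this
  have hcard := finrank_span_eq_card hind
  rw [Fintype.card_coe] at hcard
  rw [← hcard]
  refine Submodule.finrank_mono (Submodule.span_le.2 ?_)
  rintro _ ⟨S, rfl⟩
  obtain ⟨hS, q, hq⟩ := h𝓜 S S.2
  have := hspan _ q ⟨S, hS⟩ rfl
  have h2 := Submodule.smul_mem _ (alpha ℱ (g q) S)⁻¹ this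
  rw [smul_smul, inv_mul_cancel₀ hq, one_smul] at h2
  exact h2

theorem logRank_meet (ℱ : Finset (Finset ι))
    (hinter : ∀ A ∈ ℱ, ∀ B ∈ ℱ, A ∩ B ∈ ℱ)
    (hunion : ∀ C ∈ ℱ, ∀ A ∈ ℱ, ∀ B ∈ ℱ, A ⊆ C → B ⊆ C → A ∪ B ∈ ℱ)
    (Q : Type) [Fintype Q] (f : Q → Finset ι → Bool)
    (hne : ∃ q, ∃ v ∈ ℱ, f q v = true) :
    ∃ π : Protocol ℱ (Q × ℱ), (∀ x p, π.eval x p = f p.1 ((x : Finset ι) ∩ p.2)) ∧
      (π.cost : ℝ) ≤ 40 * (1 + Real.logb 2
        (realRank (fun (x : ℱ) (p : Q × ℱ) => f p.1 ((x : Finset ι) ∩ p.2)))) ^ 5 := by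
  classical
  set r := realRank (fun (x : ℱ) (p : Q × ℱ) => f p.1 ((x : Finset ι) ∩ p.2)) with hr
  set g : Q → Finset ι → ℝ := fun q v => if f q v = true then 1 else 0 with hg
  have hg01 : ∀ q v, g q v = 0 ∨ g q v = 1 := by
    intro q v; simp only [hg]; split_ifs <;> simp
  set 𝓜 := ℱ.filter (fun S => ∃ q : Q, alpha ℱ (g q) S ≠ 0) with h𝓜
  have hcard : 𝓜.card ≤ r := card_le_realRank ℱ hinter f 𝓜 (fun S hS => mem_filter.1 hS)
  have hr1 : 1 ≤ r := by
    refine le_trans ?_ hcard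
    by_contra hcon
    have h0 : 𝓜 = ∅ := by
      rw [← Finset.card_eq_zero]; omega
    obtain ⟨q, v, hv, hfv⟩ := hne
    have h1 := sum_alpha ℱ (g q) hv
    have h2 : g q v = 1 := by simp [hg, hfv]
    rw [h2] at h1
    obtain ⟨S, hS, hS'⟩ := Finset.exists_ne_zero_of_sum_ne_zero (by rw [h1]; norm_num)
    have : S ∈ 𝓜 := mem_filter.2 ⟨(mem_filter.1 hS).1, q, hS'⟩
    rw [h0] at this
    simp at this
  set t := Nat.log 2 r + 1 with ht
  have hrt : r < 2 ^ t := Nat.lt_pow_succ_log_self (by norm_num) r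
  -- coefficients of the columns
  set a : Q × ℱ → Finset ι → ℝ := fun p S =>
    if S ∈ ℱ ∧ S ⊆ p.2 then alpha ℱ (g p.1) S else 0 with ha
  have hval : ∀ p z, val (a p) z = ∑ S ∈ ℱ.filter (fun S => S ⊆ z ∩ p.2), alpha ℱ (g p.1) S := by
    intro p z
    unfold val
    simp only [ha]
    rw [← Finset.sum_filter]
    refine Finset.sum_congr ?_ fun _ _ => rfl
    ext S
    simp only [mem_filter, mem_powerset, subset_inter_iff]
    tauto
  have hcore := core (t := t) ℱ (univ : Finset (Q × ℱ)) a 𝓜 (lt_of_le_of_lt hcard hrt)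
    (by
      intro p _ S _ hS
      simp only [ha] at hS
      split_ifs at hS with h
      · exact mem_filter.2 ⟨h.1, p.1, hS⟩
      · exact absurd rfl hS)
    (by
      rintro p _ z ⟨x, hx, hz⟩
      rw [hval]
      exact sum_alpha_below hunion (g p.1) (hg01 p.1) hx (inter_subset_left.trans hz))
    (fun x p => f p.1 (x ∩ p.2))
    (by
      intro x hx p _
      rw [hval, sum_alpha ℱ (g p.1) (hinter x hx p.2 p.2.2)])
  obtain ⟨π, hπ1, hπ2⟩ := CCOn.comap (Subtype.val : ℱ → Finset ι) (id : Q × ℱ → Q × ℱ) hcore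
  refine ⟨π, fun x p => hπ2 x p ⟨x.2, mem_univ _⟩, ?_⟩
  have ht1 : 1 ≤ t := by omega
  have hcost : π.cost ≤ 40 * t ^ 5 := by
    refine hπ1.trans ?_
    have e : t * (2 * ((4 * t ^ 3 + 1) * (3 * t) + t + 3)) + 2 =
        24 * t ^ 5 + 8 * t ^ 2 + 6 * t + 2 := by ring
    rw [e]
    have h1 : t ≤ t ^ 5 := by
      calc t = t ^ 1 := (pow_one t).symm
        _ ≤ t ^ 5 := Nat.pow_le_pow_right ht1 (by norm_num)
    have h2 : t ^ 2 ≤ t ^ 5 := Nat.pow_le_pow_right ht1 (by norm_num)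
    omega
  have hlog : (t : ℝ) ≤ 1 + Real.logb 2 r := by
    have : (Nat.log 2 r : ℝ) ≤ Real.logb 2 r := by exact_mod_cast Real.natLog_le_logb r 2
    rw [ht]; push_cast; linarith
  calc (π.cost : ℝ) ≤ ((40 * t ^ 5 : ℕ) : ℝ) := by exact_mod_cast hcost
    _ = 40 * (t : ℝ) ^ 5 := by push_cast; ring
    _ ≤ 40 * (1 + Real.logb 2 r) ^ 5 := by
        have : (t : ℝ) ^ 5 ≤ (1 + Real.logb 2 r) ^ 5 :=
          pow_le_pow_left₀ (by positivity) hlog 5
        linarith

end Pool.Agent.Lib_helper10.AndRank
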