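import Mathlib
import Pool.Agent.Lib_helper10.AndRank.Final

set_option autoImplicit false
set_option linter.unusedSectionVars false

/-! Alternating sums over subcubes. -/

namespace Pool.Agent.Lib_helper10.AndRank

open Finset Pool.Agent.Lib_helper10.LogRank

variable {ι : Type} [DecidableEq ι] [Fintype ι]

/-- alternating sum of `h` over the subcube through `p` with free coordinates `I` -/
noncomputable def der (h : Finset ι → ℝ) (I p : Finset ι) : ℝ :=
  ∑ c ∈ I.powerset, (-1) ^ c.card * h (symmDiff p c)

theorem der_sub (h h' : Finset ι → ℝ) (I p : Finset ι) :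
    der (fun z => h z - h' z) I p = der h I p - der h' I p := by
  unfold der
  rw [← Finset.sum_sub_distrib]
  exact Finset.sum_congr rfl fun c _ => by ring

theorem der_insert_right (h : Finset ι → ℝ) {e : ι} {I p : Finset ι} (hI : e ∉ I) (hp : e ∉ p) :
    der h I (insert e p) = der (fun z => h (insert e z)) I p := by
  unfold der
  refine Finset.sum_congr rfl fun c hc => ?_
  have hec : e ∉ c := fun h => hI (mem_powerset.1 hc h)
  congr 2
  ext x
  simp only [mem_symmDiff, mem_insert]
  by_cases hx : x = e
  · subst hx; simp [hec]
  · simp [hx]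

theorem der_insert_left (h : Finset ι → ℝ) {e : ι} {I p : Finset ι} (hI : e ∉ I) (hp : e ∉ p) :
    der h (insert e I) p = der h I p - der (fun z => h (insert e z)) I p := by
  unfold der
  rw [Finset.sum_powerset_insert hI, sub_eq_add_neg, ← Finset.sum_neg_distrib]
  congr 1
  refine Finset.sum_congr rfl fun c hc => ?_
  have hec : e ∉ c := fun h => hI (mem_powerset.1 hc h)
  rw [card_insert_of_notMem hec, pow_succ]
  have : symmDiff p (insert e c) = insert e (symmDiff p c) := by
    ext x
    simp only [mem_symmDiff, mem_insert]
    by_cases hx : x = e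
    · subst hx; simp [hp]
    · simp [hx]
  rw [this]
  ring

theorem der_insert_both (h : Finset ι → ℝ) {e : ι} {I p : Finset ι} (hI : e ∉ I) (hp : e ∉ p) :
    der h (insert e I) (insert e p) = der (fun z => h (insert e z)) I p - der h I p := by
  unfold der
  rw [Finset.sum_powerset_insert hI, sub_eq_add_neg, ← Finset.sum_neg_distrib]
  congr 1
  · refine Finset.sum_congr rfl fun c hc => ?_
    have hec : e ∉ c := fun h => hI (mem_powerset.1 hc h)
    congr 2
    ext x
    simp only [mem_symmDiff, mem_insert]
    by_cases hx : x = e
    · subst hx; simp [hec]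
    · simp [hx]
  · refine Finset.sum_congr rfl fun c hc => ?_
    have hec : e ∉ c := fun h => hI (mem_powerset.1 hc h)
    rw [card_insert_of_notMem hec, pow_succ]
    have : symmDiff (insert e p) (insert e c) = symmDiff p c := by
      ext x
      simp only [mem_symmDiff, mem_insert]
      by_cases hx : x = e
      · subst hx; simp [hp, hec]
      · simp [hx]
    rw [this]
    ring

/-- number of pairs (point `p`, nonzero alternating sum over a subcube through `p`) -/
noncomputable def wt (D : Finset ι) (h : Finset ι → ℝ) : ℕ := by
  classical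
  exact ∑ p ∈ D.powerset, ∑ I ∈ D.powerset, if der h I p ≠ 0 then 1 else 0

theorem three_pow_le_wt (D : Finset ι) : ∀ h : Finset ι → ℝ, der h D ∅ ≠ 0 →
    3 ^ D.card ≤ wt D h := by
  classical
  induction D using Finset.induction_on with
  | empty =>
    intro h hh
    simp only [wt, powerset_empty, sum_singleton, card_empty, pow_zero]
    rw [if_pos hh]
  | insert e D he ih =>
    intro h hh
    set h₁ : Finset ι → ℝ := fun z => h (insert e z) with hh₁
    have hw : wt (insert e D) h = wt D h + wt D h₁ + wt D (fun z => h z - h₁ z) +
        wt D (fun z => h₁ z - h z) := by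
      unfold wt
      rw [Finset.sum_powerset_insert he]
      simp only [Finset.sum_powerset_insert he]
      rw [Finset.sum_add_distrib, Finset.sum_add_distrib]
      have e1 : ∑ p ∈ D.powerset, ∑ I ∈ D.powerset, (if der h (insert e I) p ≠ 0 then 1 else 0) =
          ∑ p ∈ D.powerset, ∑ I ∈ D.powerset,
            (if der (fun z => h z - h₁ z) I p ≠ 0 then 1 else 0) := by
        refine Finset.sum_congr rfl fun p hp => Finset.sum_congr rfl fun I hI => ?_
        rw [der_insert_left h (fun h' => he (mem_powerset.1 hI h'))
          (fun h' => he (mem_powerset.1 hp h')), der_sub]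
      have e2 : ∑ p ∈ D.powerset, ∑ I ∈ D.powerset, (if der h I (insert e p) ≠ 0 then 1 else 0) =
          ∑ p ∈ D.powerset, ∑ I ∈ D.powerset, (if der h₁ I p ≠ 0 then 1 else 0) := by
        refine Finset.sum_congr rfl fun p hp => Finset.sum_congr rfl fun I hI => ?_
        rw [der_insert_right h (fun h' => he (mem_powerset.1 hI h'))
          (fun h' => he (mem_powerset.1 hp h'))]
      have e3 : ∑ p ∈ D.powerset, ∑ I ∈ D.powerset,
          (if der h (insert e I) (insert e p) ≠ 0 then 1 else 0) =
          ∑ p ∈ D.powerset, ∑ I ∈ D.powerset,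
            (if der (fun z => h₁ z - h z) I p ≠ 0 then 1 else 0) := by
        refine Finset.sum_congr rfl fun p hp => Finset.sum_congr rfl fun I hI => ?_
        rw [der_insert_both h (fun h' => he (mem_powerset.1 hI h'))
          (fun h' => he (mem_powerset.1 hp h')), der_sub]
      rw [e1, e2, e3]
      ring
    rw [der_insert_left h he (by simp)] at hh
    have h1 : 3 ^ D.card ≤ wt D (fun z => h z - h₁ z) := ih _ (by rw [der_sub]; exact hh)
    have h2 : 3 ^ D.card ≤ wt D (fun z => h₁ z - h z) := ih _ (by
      rw [der_sub]
      intro h'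
      apply hh
      linarith)
    have h3 : 3 ^ D.card ≤ wt D h + wt D h₁ := by
      by_cases h0 : der h D ∅ = 0
      · have h0' : der h₁ D ∅ ≠ 0 := by
          intro h'
          apply hh
          rw [h0, h', sub_zero]
        exact (ih _ h0').trans (Nat.le_add_left _ _)
      · exact (ih _ h0).trans (Nat.le_add_right _ _)
    rw [card_insert_of_notMem he, pow_succ, hw]
    omega

/-- splitting the alternating sum -/
theorem der_split (g : Finset ι → ℝ) {D E : Finset ι} (hDE : Disjoint D E) :
    der g (D ∪ E) ∅ = ∑ z ∈ E.powerset, (-1) ^ z.card * der (fun c => g (c ∪ z)) D ∅ := by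
  unfold der
  simp only [Finset.mul_sum]
  rw [Finset.sum_comm, ← Finset.sum_product']
  symm
  refine Finset.sum_nbij' (fun p => p.1 ∪ p.2) (fun c => (c ∩ D, c ∩ E)) ?_ ?_ ?_ ?_ ?_
  · rintro ⟨c, z⟩ h
    rw [mem_product, mem_powerset, mem_powerset] at h
    rw [mem_powerset]
    exact union_subset_union h.1 h.2
  · intro c _
    rw [mem_product, mem_powerset, mem_powerset]
    exact ⟨inter_subset_right, inter_subset_right⟩
  · rintro ⟨c, z⟩ h
    rw [mem_product, mem_powerset, mem_powerset] at h
    simp only at h
    have h1 : (c ∪ z) ∩ D = c := by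
      ext x
      simp only [mem_inter, mem_union]
      constructor
      · rintro ⟨h1 | h1, h2⟩
        · exact h1
        · exact absurd (h.2 h1) (Finset.disjoint_left.1 hDE h2)
      · intro h1; exact ⟨Or.inl h1, h.1 h1⟩
    have h2 : (c ∪ z) ∩ E = z := by
      ext x
      simp only [mem_inter, mem_union]
      constructor
      · rintro ⟨h1 | h1, h2⟩
        · exact absurd h2 (Finset.disjoint_left.1 hDE (h.1 h1))
        · exact h1
      · intro h1; exact ⟨Or.inr h1, h.2 h1⟩
    simp only [h1, h2]
  · intro c h
    rw [mem_powerset] at h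
    simp only
    rw [← inter_union_distrib_left, inter_eq_left.2 h]
  · rintro ⟨c, z⟩ h
    rw [mem_product, mem_powerset, mem_powerset] at h
    simp only at h ⊢
    have hcz : Disjoint c z := disjoint_of_subset_left h.1 (disjoint_of_subset_right h.2 hDE)
    rw [card_union_of_disjoint hcz, pow_add]
    have e1 : symmDiff (∅ : Finset ι) c = c := by simp
    have e2 : symmDiff (∅ : Finset ι) (c ∪ z) = c ∪ z := by simp
    rw [e1, e2]
    ring

/-- relation with the Möbius coefficients -/
theorem der_eq_alpha (g : Finset ι → ℝ) {D I : Finset ι} (hI : I ⊆ D) :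
    der g I ∅ = (-1) ^ I.card * alpha D.powerset g I := by
  have hg : ∀ c ⊆ D, g c = ∑ S ∈ c.powerset, alpha D.powerset g S := by
    intro c hc
    rw [← sum_alpha D.powerset g (mem_powerset.2 hc)]
    refine Finset.sum_congr ?_ fun _ _ => rfl
    ext S
    simp only [mem_filter, mem_powerset]
    exact ⟨fun h => h.2, fun h => ⟨h.trans hc, h⟩⟩
  have h1 : der g I ∅ = ∑ c ∈ I.powerset, ∑ S ∈ I.powerset,
      (if S ⊆ c then (-1 : ℝ) ^ c.card else 0) * alpha D.powerset g S := by
    unfold der
    refine Finset.sum_congr rfl fun c hc => ?_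
    rw [mem_powerset] at hc
    have e1 : symmDiff (∅ : Finset ι) c = c := by simp
    rw [e1, hg c (hc.trans hI), Finset.mul_sum]
    have e2 : c.powerset = I.powerset.filter (fun S => S ⊆ c) := by
      ext S
      simp only [mem_filter, mem_powerset]
      exact ⟨fun h => ⟨h.trans hc, h⟩, fun h => h.2⟩
    rw [e2, Finset.sum_filter]
    refine Finset.sum_congr rfl fun S _ => ?_
    split_ifs <;> simp
  rw [h1, Finset.sum_comm]
  rw [Finset.sum_eq_single_of_mem I (mem_powerset.2 Subset.rfl)]
  · rw [← Finset.sum_mul]
    congr 1
    rw [Finset.sum_eq_single_of_mem I (mem_powerset.2 Subset.rfl)]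
    · simp
    · intro c hc hne
      rw [mem_powerset] at hc
      rw [if_neg]
      intro h
      exact hne (Subset.antisymm hc h)
  · intro S hS hne
    rw [mem_powerset] at hS
    rw [← Finset.sum_mul]
    have hne' : (I \ S).Nonempty := by
      rw [Finset.sdiff_nonempty]
      intro h
      exact hne (Subset.antisymm hS h)
    have : ∑ c ∈ I.powerset, (if S ⊆ c then (-1 : ℝ) ^ c.card else 0) = 0 := by
      rw [← Finset.sum_filter]
      have hre : ∑ c ∈ I.powerset.filter (fun c => S ⊆ c), (-1 : ℝ) ^ c.card =
          ∑ c ∈ (I \ S).powerset, (-1 : ℝ) ^ S.card * (-1 : ℝ) ^ c.card := by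
        refine Finset.sum_nbij' (fun c => c \ S) (fun c => c ∪ S) ?_ ?_ ?_ ?_ ?_
        · intro c hc
          rw [mem_filter, mem_powerset] at hc
          rw [mem_powerset]
          exact sdiff_subset_sdiff hc.1 Subset.rfl
        · intro c hc
          rw [mem_powerset] at hc
          rw [mem_filter, mem_powerset]
          exact ⟨union_subset (hc.trans sdiff_subset) hS, subset_union_right⟩
        · intro c hc
          rw [mem_filter] at hc
          exact sdiff_union_of_subset hc.2
        · intro c hc
          rw [mem_powerset] at hc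
          rw [union_sdiff_right]
          exact sdiff_eq_self_of_disjoint
            (disjoint_of_subset_left hc sdiff_disjoint)
        · intro c hc
          rw [mem_filter] at hc
          rw [← pow_add]
          congr 1
          have := card_sdiff_add_card_eq_card hc.2
          omega
      rw [hre, ← Finset.mul_sum]
      have h0 : ∑ c ∈ (I \ S).powerset, (-1 : ℝ) ^ c.card = 0 := by
        have := Finset.sum_powerset_neg_one_pow_card_of_nonempty hne'
        exact_mod_cast congrArg (Int.cast : ℤ → ℝ) this
      rw [h0, mul_zero]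
    rw [this, zero_mul]

end Pool.Agent.Lib_helper10.AndRank
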