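import Mathlib
import Pool.Agent.Lib_helper10.AndRank.Der

set_option autoImplicit false
set_option linter.unusedSectionVars false

/-! Rank lemmas. -/

namespace Pool.Agent.Lib_helper10.AndRank

open Finset Pool.Agent.Lib_helper10.LogRank

theorem realRank_comap {X Y X' Y' : Type} [Fintype X] [Fintype X'] [Fintype Y] [Fintype Y']
    (F : X → Y → Bool) (α : X' → X) (β : Y' → Y) :
    realRank (fun x y => F (α x) (β y)) ≤ realRank F := by
  unfold realRank
  rw [Matrix.rank_eq_finrank_span_cols, Matrix.rank_eq_finrank_span_cols]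
  set A : Matrix X Y ℝ := Matrix.of fun (x : X) (y : Y) => if F x y then (1 : ℝ) else 0 with hA
  set B : Matrix X' Y' ℝ := Matrix.of fun (x : X') (y : Y') =>
    if F (α x) (β y) then (1 : ℝ) else 0 with hB
  have h : Submodule.span ℝ (Set.range B.col) ≤
      (Submodule.span ℝ (Set.range A.col)).map (LinearMap.funLeft ℝ ℝ α) := by
    rw [Submodule.span_le]
    rintro _ ⟨y, rfl⟩
    refine ⟨A.col (β y), Submodule.subset_span ⟨β y, rfl⟩, ?_⟩
    ext x
    rfl
  exact (Submodule.finrank_mono h).trans (Submodule.finrank_map_le _ _)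

/-- a matrix with sparse rows and no zero column has large rank -/
theorem cover {X Y : Type} [Fintype X] [Fintype Y] (M : X → Y → ℝ) (N : ℕ)
    (hrow : ∀ x, (univ.filter (fun y => M x y ≠ 0)).card ≤ N) (hcol : ∀ y, ∃ x, M x y ≠ 0) :
    Fintype.card Y ≤ Module.finrank ℝ (Submodule.span ℝ (Set.range M)) * N := by
  classical
  obtain ⟨T, hT1, hT2, hT3, -⟩ := Submodule.exists_finset_span_eq_linearIndepOn ℝ (Set.range M)
  rw [← hT2]
  have hcov : (univ : Finset Y) ⊆ T.biUnion fun v => univ.filter (fun y => v y ≠ 0) := by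
    intro y _
    by_contra hcon
    simp only [mem_biUnion, mem_filter, mem_univ, true_and, not_exists, not_and, not_not] at hcon
    obtain ⟨x, hx⟩ := hcol y
    apply hx
    have hxT : M x ∈ Submodule.span ℝ (T : Set (Y → ℝ)) := by
      rw [hT3]; exact Submodule.subset_span ⟨x, rfl⟩
    have : ∀ v ∈ Submodule.span ℝ (T : Set (Y → ℝ)), v y = 0 := by
      intro v hv
      induction hv using Submodule.span_induction with
      | mem v hv => exact hcon v hv
      | zero => rfl
      | add u v _ _ hu hv => simp [hu, hv]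
      | smul c v _ hv => simp [hv]
    exact this _ hxT
  calc Fintype.card Y = (univ : Finset Y).card := rfl
    _ ≤ _ := card_le_card hcov
    _ ≤ ∑ v ∈ T, (univ.filter (fun y => v y ≠ 0)).card := card_biUnion_le
    _ ≤ ∑ _v ∈ T, N := by
        refine Finset.sum_le_sum fun v hv => ?_
        obtain ⟨x, rfl⟩ := hT1 hv
        exact hrow x
    _ = T.card * N := by rw [Finset.sum_const, smul_eq_mul]

theorem finrank_le_realRank {X Y : Type} [Fintype X] [Fintype Y] (F : X → Y → Bool)
    (V : Submodule ℝ (Y → ℝ))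
    (hV : V ≤ Submodule.span ℝ (Set.range fun (x : X) (y : Y) => if F x y then (1 : ℝ) else 0)) :
    Module.finrank ℝ V ≤ realRank F := by
  unfold realRank
  rw [Matrix.rank_eq_finrank_span_row]
  exact Submodule.finrank_mono hV

variable {ι : Type} [DecidableEq ι] [Fintype ι]

/-- number of monomials of an AND function -/
theorem card_der_le (D : Finset ι) (f : Finset ι → Bool) (s : Finset (Finset ι))
    (hs : ∀ I ∈ s, I ⊆ D ∧ der (fun c => if f c = true then 1 else 0) I ∅ ≠ 0) :
    s.card ≤ realRank (fun (x y : D.powerset) => f ((x : Finset ι) ∩ y)) := by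
  have h1 := card_le_realRank (Q := Unit) D.powerset
    (fun A hA B hB => mem_powerset.2 (inter_subset_left.trans (mem_powerset.1 hA)))
    (fun _ => f) s (fun I hI => by
      obtain ⟨h1, h2⟩ := hs I hI
      refine ⟨mem_powerset.2 h1, (), fun h0 => h2 ?_⟩
      rw [der_eq_alpha _ h1, h0, mul_zero])
  refine h1.trans ?_
  exact realRank_comap (fun (x y : D.powerset) => f ((x : Finset ι) ∩ y)) id
    (fun p : Unit × D.powerset => p.2)

end Pool.Agent.Lib_helper10.AndRank
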