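import Mathlib
import Pool.Agent.Lib_helper10.AndRank.RankLem

set_option autoImplicit false
set_option linter.unusedSectionVars false

/-! Composed functions: degree bounds in the coordinates whose gadget is not a rectangle. -/

namespace Pool.Agent.Lib_helper10.AndRank

open Finset Pool.Agent.Lib_helper10.LogRank

variable {ι Q : Type} {A B : ι → Type} [DecidableEq ι] [Fintype ι] [∀ i, Fintype (A i)]
  [∀ i, Fintype (B i)] [Fintype Q]

/-- the composed function; `f q` is a function of the set of coordinates with value one -/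
def comp (g : ∀ i, A i → B i → Bool) (f : Q → Finset ι → Bool) (x : ∀ i, A i)
    (p : Q × (∀ i, B i)) : Bool :=
  f p.1 (univ.filter fun i => g i (x i) (p.2 i) = true)

theorem disj_at {s t : Finset ι} (h : Disjoint s t) (x : ι) (hx : x ∈ s) : x ∉ t :=
  Finset.disjoint_left.1 h hx

/-- indicator -/
noncomputable def ind (f : Finset ι → Bool) (z : Finset ι) : ℝ := if f z = true then 1 else 0

section bounds

variable (g : ∀ i, A i → B i → Bool) (f : Q → Finset ι → Bool)
  (αA : ∀ i, Bool → A i) (βA : ∀ i, Bool → B i) (hA : ∀ i u v, g i (αA i u) (βA i v) = (u && v))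
include hA

theorem embed_all :
    realRank (fun (x : (univ : Finset ι).powerset) (p : Q × (univ : Finset ι).powerset) =>
      f p.1 ((x : Finset ι) ∩ p.2)) ≤ realRank (comp g f) := by
  classical
  have h := realRank_comap (comp g f)
    (fun (x : (univ : Finset ι).powerset) i => αA i (decide (i ∈ (x : Finset ι))))
    (fun (p : Q × (univ : Finset ι).powerset) =>
      (p.1, fun i => βA i (decide (i ∈ (p.2 : Finset ι)))))
  refine le_of_eq_of_le ?_ h
  congr 1
  funext x p
  unfold comp
  congr 1
  ext i
  simp [hA]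

theorem embed_or (αO : ∀ i, Bool → A i) (βO : ∀ i, Bool → B i) (q : Q) (D z₀ p : Finset ι)
    (hO : ∀ i ∈ p, ∀ u v, g i (αO i u) (βO i v) = !(u && v)) (hD : Disjoint D z₀) (hp : p ⊆ D) :
    realRank (fun (x y : D.powerset) => f q (symmDiff p ((x : Finset ι) ∩ y) ∪ z₀)) ≤
      realRank (comp g f) := by
  classical
  have h := realRank_comap (comp g f)
    (fun (x : D.powerset) i => if i ∈ D then
      (if i ∈ p then αO i (decide (i ∈ (x : Finset ι))) else αA i (decide (i ∈ (x : Finset ι))))
      else αA i (decide (i ∈ z₀)))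
    (fun (y : D.powerset) => (q, fun i => if i ∈ D then
      (if i ∈ p then βO i (decide (i ∈ (y : Finset ι))) else βA i (decide (i ∈ (y : Finset ι))))
      else βA i (decide (i ∈ z₀))))
  refine le_of_eq_of_le ?_ h
  congr 1
  funext x y
  unfold comp
  congr 1
  ext i
  have hx := mem_powerset.1 x.2
  have hy := mem_powerset.1 y.2
  simp only [mem_union, mem_symmDiff, mem_inter, mem_filter, mem_univ, true_and]
  by_cases hi : i ∈ D
  · have hz : i ∉ z₀ := Finset.disjoint_left.1 hD hi
    by_cases hip : i ∈ p
    · simp only [hi, hip, if_true, hO i hip]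
      simp [hz]
      tauto
    · simp only [hi, hip, if_true, if_false, hA]
      simp [hz]
  · have h1 : i ∉ p := fun h => hi (hp h)
    have h2 : i ∉ (x : Finset ι) := fun h => hi (hx h)
    simp only [hi, if_false, hA]
    simp [h1, h2]

theorem boundB (αO : ∀ i, Bool → A i) (βO : ∀ i, Bool → B i) (q : Q) (D z₀ : Finset ι)
    (hO : ∀ i ∈ D, ∀ u v, g i (αO i u) (βO i v) = !(u && v)) (hD : Disjoint D z₀)
    (hder : der (fun c => ind (f q) (c ∪ z₀)) D ∅ ≠ 0) :
    3 ^ D.card ≤ 2 ^ D.card * realRank (comp g f) := by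
  classical
  refine (three_pow_le_wt D _ hder).trans ?_
  unfold wt
  rw [← card_powerset, ← smul_eq_mul, ← Finset.sum_const]
  refine Finset.sum_le_sum fun p hp => ?_
  rw [mem_powerset] at hp
  rw [← Finset.card_filter]
  refine (card_der_le D (fun c => f q (symmDiff p c ∪ z₀)) _ ?_).trans
    (embed_or g f αA βA hA αO βO q D z₀ p (fun i hi => hO i (hp hi)) hD hp)
  intro I hI
  rw [mem_filter, mem_powerset] at hI
  refine ⟨hI.1, ?_⟩
  convert hI.2 using 1
  unfold der ind
  refine Finset.sum_congr rfl fun c _ => ?_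
  have : symmDiff (∅ : Finset ι) c = c := by simp
  rw [this]

theorem embed_xor (αX : ∀ i, Bool → A i) (βX : ∀ i, Bool → B i) (q : Q) (I E z₀ : Finset ι)
    (hX : ∀ i ∈ E, ∀ u v, g i (αX i u) (βX i v) = xor u v) (hIE : Disjoint I E)
    (hIz : Disjoint I z₀) (hEz : Disjoint E z₀) :
    realRank (fun (x : I.powerset × E.powerset) (y : E.powerset) =>
      f q (((symmDiff (x.2 : Finset ι) y) ∪ x.1) ∪ z₀)) ≤ realRank (comp g f) := by
  classical
  have h := realRank_comap (comp g f)
    (fun (x : I.powerset × E.powerset) i => if i ∈ E then αX i (decide (i ∈ (x.2 : Finset ι)))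
      else if i ∈ I then αA i (decide (i ∈ (x.1 : Finset ι))) else αA i (decide (i ∈ z₀)))
    (fun (y : E.powerset) => (q, fun i => if i ∈ E then βX i (decide (i ∈ (y : Finset ι)))
      else if i ∈ I then βA i true else βA i (decide (i ∈ z₀))))
  refine le_of_eq_of_le ?_ h
  congr 1
  funext x y
  unfold comp
  congr 1
  ext i
  have hx1 := mem_powerset.1 x.1.2
  have hx2 := mem_powerset.1 x.2.2
  have hy := mem_powerset.1 y.2
  simp only [mem_union, mem_symmDiff, mem_filter, mem_univ, true_and]
  by_cases hi : i ∈ E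
  · have hz : i ∉ z₀ := Finset.disjoint_left.1 hEz hi
    have h1 : i ∉ (x.1 : Finset ι) := fun h => Finset.disjoint_left.1 hIE (hx1 h) hi
    simp only [hi, if_true, hX i hi]
    simp only [hz, h1, or_false]
    by_cases h2 : i ∈ (x.2 : Finset ι) <;> by_cases h3 : i ∈ (y : Finset ι) <;> simp [h2, h3]
  · have h2 : i ∉ (x.2 : Finset ι) := fun h => hi (hx2 h)
    have h3 : i ∉ (y : Finset ι) := fun h => hi (hy h)
    by_cases hi' : i ∈ I
    · have hz : i ∉ z₀ := Finset.disjoint_left.1 hIz hi'
      simp [hi, hi', hA, hz, h2, h3]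
    · have h1 : i ∉ (x.1 : Finset ι) := fun h => hi' (hx1 h)
      simp [hi, hi', hA, h1, h2, h3]

theorem boundC (αX : ∀ i, Bool → A i) (βX : ∀ i, Bool → B i) (q : Q) (D z₀ : Finset ι)
    (hX : ∀ i ∈ D, ∀ u v, g i (αX i u) (βX i v) = xor u v) (hD : Disjoint D z₀)
    (hder : der (fun c => ind (f q) (c ∪ z₀)) D ∅ ≠ 0) :
    3 ^ D.card ≤ 2 ^ D.card * realRank (comp g f) ^ 2 := by
  classical
  set r := realRank (comp g f) with hr
  set h : Finset ι → ℝ := fun c => ind (f q) (c ∪ z₀) with hh
  -- upper bound
  have hupper : ∀ P ∈ D.powerset,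
      ((D.powerset).filter fun I => Disjoint I P ∧ der h I P ≠ 0).card ≤ r := by
    intro P hP
    rw [mem_powerset] at hP
    have hdisj : Disjoint (D \ P) (z₀ ∪ P) := by
      rw [Finset.disjoint_union_right]
      exact ⟨disjoint_of_subset_left sdiff_subset hD, sdiff_disjoint⟩
    have h1 := embed_or g f αA βA hA αA βA q (D \ P) (z₀ ∪ P) ∅ (by simp) hdisj (by simp)
    refine le_trans ?_ h1
    refine card_der_le (D \ P) (fun c => f q (symmDiff ∅ c ∪ (z₀ ∪ P))) _ ?_
    intro I hI
    rw [mem_filter, mem_powerset] at hI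
    obtain ⟨hI1, hI2, hI3⟩ := hI
    refine ⟨subset_sdiff.2 ⟨hI1, hI2⟩, ?_⟩
    convert hI3 using 1
    unfold der
    refine Finset.sum_congr rfl fun c hc => ?_
    rw [mem_powerset] at hc
    have e1 : symmDiff (∅ : Finset ι) c = c := by simp
    have e2 : symmDiff P c = P ∪ c := by
      ext x
      have := disj_at (disjoint_of_subset_left hc hI2) x
      simp only [mem_symmDiff, mem_union]
      tauto
    rw [e1, hh]
    simp only [ind, e1, e2]
    have e3 : c ∪ (z₀ ∪ P) = P ∪ c ∪ z₀ := by
      ext x; simp only [mem_union]; tauto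
    rw [e3]
  -- lower bound
  have hlower : ∀ I ∈ D.powerset, 2 ^ (D \ I).card ≤
      r * ((D.powerset).filter fun P => Disjoint I P ∧ der h I P ≠ 0).card := by
    intro I hI
    rw [mem_powerset] at hI
    set E := D \ I with hE
    have hIE : Disjoint I E := disjoint_sdiff
    have hDIE : I ∪ E = D := union_sdiff_of_subset hI
    have hIz : Disjoint I z₀ := disjoint_of_subset_left hI hD
    have hEz : Disjoint E z₀ := disjoint_of_subset_left sdiff_subset hD
    set N := ((D.powerset).filter fun P => Disjoint I P ∧ der h I P ≠ 0).card with hN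
    let M : E.powerset → E.powerset → ℝ := fun x y => der h I (symmDiff (x : Finset ι) y)
    have hsub : ∀ x y : E.powerset, symmDiff (x : Finset ι) y ⊆ E := by
      intro x y z hz
      rw [mem_symmDiff] at hz
      rcases hz with hz | hz
      · exact mem_powerset.1 x.2 hz.1
      · exact mem_powerset.1 y.2 hz.1
    have hrow : ∀ x : E.powerset, (univ.filter (fun y => M x y ≠ 0)).card ≤ N := by
      intro x
      refine Finset.card_le_card_of_injOn (fun y : E.powerset => symmDiff (x : Finset ι) y) ?_ ?_
      · intro y hy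
        rw [mem_coe, mem_filter] at hy
        rw [mem_coe, mem_filter, mem_powerset]
        exact ⟨(hsub x y).trans sdiff_subset,
          disjoint_of_subset_right (hsub x y) hIE, hy.2⟩
      · intro y _ y' _ hyy
        exact Subtype.ext (symmDiff_right_injective (x : Finset ι) hyy)
    have hcol : ∀ y : E.powerset, ∃ x, M x y ≠ 0 := by
      intro y
      have h1 := hder
      rw [← hDIE, der_split _ hIE] at h1
      obtain ⟨z, hz, hz'⟩ := Finset.exists_ne_zero_of_sum_ne_zero h1
      rw [mem_powerset] at hz
      refine ⟨⟨symmDiff z y, mem_powerset.2 ?_⟩, ?_⟩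
      · exact hsub ⟨z, mem_powerset.2 hz⟩ y
      · simp only [M]
        rw [symmDiff_symmDiff_cancel_right]
        intro h0
        apply hz'
        have : der (fun c => (fun c => ind (f q) (c ∪ z₀)) (c ∪ z)) I ∅ = der h I z := by
          unfold der
          refine Finset.sum_congr rfl fun c hc => ?_
          rw [mem_powerset] at hc
          have e1 : symmDiff (∅ : Finset ι) c = c := by simp
          have e2 : symmDiff z c = c ∪ z := by
            ext x
            have := disj_at (disjoint_of_subset_left hc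
              (disjoint_of_subset_right hz hIE)) x
            simp only [mem_symmDiff, mem_union]
            tauto
          rw [e1, hh]
          simp only [e2]
        rw [this, h0, mul_zero]
    have hcov := cover M N hrow hcol
    have hcardE : Fintype.card E.powerset = 2 ^ E.card := by
      rw [Fintype.card_coe, card_powerset]
    rw [hcardE] at hcov
    refine hcov.trans (Nat.mul_le_mul ?_ le_rfl)
    refine le_trans ?_ (embed_xor g f αA βA hA αX βX q I E z₀
      (fun i hi => hX i (sdiff_subset hi)) hIE hIz hEz)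
    refine finrank_le_realRank _ _ (Submodule.span_le.2 ?_)
    rintro _ ⟨x, rfl⟩
    have hMx : M x = ∑ S : I.powerset, (-1 : ℝ) ^ (S : Finset ι).card •
        (fun y : E.powerset => if f q (((symmDiff (x : Finset ι) y) ∪ (S : Finset ι)) ∪ z₀) = true
          then (1 : ℝ) else 0) := by
      ext y
      rw [Finset.sum_apply]
      simp only [Pi.smul_apply, smul_eq_mul]
      simp only [M, der]
      rw [← Finset.sum_coe_sort I.powerset]
      refine Finset.sum_congr rfl fun S _ => ?_
      have hS := mem_powerset.1 S.2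
      have e2 : symmDiff (symmDiff (x : Finset ι) y) (S : Finset ι) =
          symmDiff (x : Finset ι) y ∪ S := by
        ext z
        have := disj_at (disjoint_of_subset_left hS
          (disjoint_of_subset_right (hsub x y) hIE)) z
        rw [mem_symmDiff, mem_union]
        tauto
      rw [e2, hh]
      simp only [ind]
    rw [SetLike.mem_coe, hMx]
    refine Submodule.sum_mem _ fun S _ => Submodule.smul_mem _ _ (Submodule.subset_span ?_)
    exact ⟨(S, x), rfl⟩
  -- double counting
  have hcount : ∑ I ∈ D.powerset, ((D.powerset).filter fun P => Disjoint I P ∧ der h I P ≠ 0).card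
      = ∑ P ∈ D.powerset, ((D.powerset).filter fun I => Disjoint I P ∧ der h I P ≠ 0).card := by
    simp only [Finset.card_filter]
    rw [Finset.sum_comm]
  have h3 : ∑ I ∈ D.powerset, 2 ^ (D \ I).card = 3 ^ D.card := by
    have h1 := Finset.sum_pow_mul_eq_add_pow (1 : ℕ) 2 D
    simp only [one_pow, one_mul] at h1
    rw [show (3 : ℕ) = 1 + 2 by norm_num, ← h1]
    refine Finset.sum_congr rfl fun I hI => ?_
    rw [card_sdiff_of_subset (mem_powerset.1 hI)]
  calc 3 ^ D.card = ∑ I ∈ D.powerset, 2 ^ (D \ I).card := h3.symm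
    _ ≤ ∑ I ∈ D.powerset,
        r * ((D.powerset).filter fun P => Disjoint I P ∧ der h I P ≠ 0).card :=
        Finset.sum_le_sum hlower
    _ = r * ∑ P ∈ D.powerset,
        ((D.powerset).filter fun I => Disjoint I P ∧ der h I P ≠ 0).card := by
        rw [← Finset.mul_sum, hcount]
    _ ≤ r * ∑ _P ∈ D.powerset, r := Nat.mul_le_mul le_rfl (Finset.sum_le_sum hupper)
    _ = 2 ^ D.card * r ^ 2 := by
        rw [Finset.sum_const, card_powerset, smul_eq_mul]; ring

end bounds

end Pool.Agent.Lib_helper10.AndRank
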