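import Mathlib
import Pool.Agent.Lib_helper10.AndRank.Gadget

set_option autoImplicit false
set_option linter.unusedSectionVars false

/-! The log-rank conjecture for composed functions with gadgets other than XOR. -/

namespace Pool.Agent.Lib_helper10.AndRank

open Finset Pool.Agent.Lib_helper10.LogRank

section single

variable {A B : Type}

theorem odd_entry : ∀ w : Bool → Bool → Bool,
    xor (xor (w false false) (w false true)) (xor (w true false) (w true true)) = true →
    ∃ s t, ∀ u v, (w u v = w s t ↔ (u = s ∧ v = t)) := by decide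

theorem exists_and (g : A → B → Bool)
    (hg : ¬ ∃ (u : A → Bool) (v : B → Bool), ∀ a b, g a b = xor (u a) (v b)) :
    ∃ (σ : Bool) (αA : Bool → A) (βA : Bool → B), ∀ u v, xor σ (g (αA u) (βA v)) = (u && v) := by
  have hne : Nonempty A ∧ Nonempty B := by
    by_contra hcon
    apply hg
    refine ⟨fun _ => false, fun _ => false, fun a b => ?_⟩
    exact absurd ⟨⟨a⟩, ⟨b⟩⟩ hcon
  obtain ⟨⟨a₀⟩, ⟨b₀⟩⟩ := hne
  push Not at hg
  obtain ⟨a, b, hab⟩ := hg (fun a => g a b₀) (fun b => xor (g a₀ b) (g a₀ b₀))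
  let row : Bool → A := fun u => if u then a else a₀
  let col : Bool → B := fun v => if v then b else b₀
  have hodd : xor (xor (g (row false) (col false)) (g (row false) (col true)))
      (xor (g (row true) (col false)) (g (row true) (col true))) = true := by
    simp only [row, col, if_true, Bool.false_eq_true, if_false]
    revert hab
    cases g a b <;> cases g a b₀ <;> cases g a₀ b <;> cases g a₀ b₀ <;> simp
  obtain ⟨s, t, hst⟩ := odd_entry (fun u v => g (row u) (col v)) hodd
  refine ⟨!(g (row s) (col t)), fun u => row (xor (!s) u), fun v => col (xor (!t) v), ?_⟩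
  intro u v
  have h1 := hst (xor (!s) u) (xor (!t) v)
  have h2 : ((xor (!s) u) = s ∧ (xor (!t) v) = t) ↔ (u && v) = true := by
    cases s <;> cases t <;> cases u <;> cases v <;> simp
  rw [h2] at h1
  cases huv : (u && v)
  · rw [huv] at h1
    have : ¬ (g (row (xor (!s) u)) (col (xor (!t) v)) = g (row s) (col t)) := by
      intro h; exact absurd (h1.1 h) (by simp)
    revert this
    cases g (row (xor (!s) u)) (col (xor (!t) v)) <;> cases g (row s) (col t) <;> simp
  · rw [huv] at h1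
    have := h1.2 rfl
    rw [this]
    cases g (row s) (col t) <;> rfl

/-- the ones of `g` form a combinatorial rectangle -/
def IsRect (g : A → B → Bool) : Prop := ∃ (u : A → Bool) (v : B → Bool), ∀ a b, g a b = (u a && v b)

theorem classify (g : A → B → Bool) : IsRect g ∨
    (∃ (αO : Bool → A) (βO : Bool → B), ∀ u v, g (αO u) (βO v) = !(u && v)) ∨
    (∃ (αX : Bool → A) (βX : Bool → B), ∀ u v, g (αX u) (βX v) = xor u v) := by
  classical
  by_cases h : ∃ a a' b b', g a b = true ∧ g a' b' = true ∧ g a ≠ g a'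
  · right
    obtain ⟨a, a', b, b', hb, hb', hne⟩ := h
    by_cases hcom : ∃ c, g a c = true ∧ g a' c = true
    · left
      obtain ⟨c, hc, hc'⟩ := hcom
      obtain ⟨d, hd⟩ := Function.ne_iff.1 hne
      cases h1 : g a d
      · have h2 : g a' d = true := by
          rw [h1] at hd
          simpa using hd.symm
        refine ⟨fun u => if u then a else a', fun v => if v then d else c, ?_⟩
        intro u v
        cases u <;> cases v <;> simp [hc, hc', h1, h2]
      · have h2 : g a' d = false := by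
          rw [h1] at hd
          simpa using hd.symm
        refine ⟨fun u => if u then a' else a, fun v => if v then d else c, ?_⟩
        intro u v
        cases u <;> cases v <;> simp [hc, hc', h1, h2]
    · right
      push Not at hcom
      have h1 : g a' b = false := by simpa using hcom b hb
      have h2 : g a b' = false := by
        by_contra h
        rw [Bool.not_eq_false] at h
        exact (hcom b' h) hb'
      refine ⟨fun u => if u then a' else a, fun v => if v then b else b', ?_⟩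
      intro u v
      cases u <;> cases v <;> simp [hb, hb', h1, h2]
  · left
    push Not at h
    by_cases h0 : ∃ a b, g a b = true
    · obtain ⟨a₀, b₀, h0⟩ := h0
      refine ⟨fun a => decide (∃ b, g a b = true), g a₀, fun a b => ?_⟩
      by_cases ha : ∃ b, g a b = true
      · obtain ⟨b', hb'⟩ := ha
        have := h a a₀ b' b₀ hb' h0
        have h3 : ∃ b, g a b = true := ⟨b', hb'⟩
        show g a b = (decide (∃ b, g a b = true) && g a₀ b)
        rw [decide_eq_true h3, this, Bool.true_and]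
      · simp only [ha, decide_false, Bool.false_and]
        push Not at ha
        simpa using ha b
    · push Not at h0
      refine ⟨fun _ => false, fun _ => false, fun a b => ?_⟩
      simpa using h0 a b

/-- `C` is a partition of the ones of `g` into rectangles -/
structure Cov (g : A → B → Bool) (C : Finset ((A → Bool) × (B → Bool))) : Prop where
  ex : ∀ a b, g a b = true → ∃ s ∈ C, s.1 a = true ∧ s.2 b = true
  sub : ∀ a b, ∀ s ∈ C, s.1 a = true → s.2 b = true → g a b = true
  inj : ∀ a b, ∀ s ∈ C, ∀ s' ∈ C, s.1 a = true → s.2 b = true → s'.1 a = true →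
    s'.2 b = true → s = s'

theorem cov_rect (g : A → B → Bool) (h : IsRect g) :
    ∃ C : Finset ((A → Bool) × (B → Bool)), C.card ≤ 1 ∧ Cov g C := by
  obtain ⟨u, v, h⟩ := h
  refine ⟨{(u, v)}, by simp, ?_, ?_, ?_⟩
  · intro a b hab
    rw [h] at hab
    simpa using hab
  · intro a b s hs h1 h2
    rw [mem_singleton] at hs
    subst hs
    simp only at h1 h2
    rw [h, h1, h2]; rfl
  · intro a b s hs s' hs' _ _ _ _
    rw [mem_singleton] at hs hs'
    rw [hs, hs']

theorem cov_protocol (π : Protocol A B) :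
    ∃ C : Finset ((A → Bool) × (B → Bool)), C.card ≤ 2 ^ π.cost ∧ Cov π.eval C := by
  classical
  induction π with
  | leaf o =>
    cases o
    · refine ⟨∅, by simp, ?_, ?_, ?_⟩ <;> simp [Protocol.eval]
    · refine ⟨{(fun _ => true, fun _ => true)}, by simp [Protocol.cost], ?_, ?_, ?_⟩ <;>
        simp [Protocol.eval]
  | alice bit t₀ t₁ ih₀ ih₁ =>
    obtain ⟨C₀, hC₀, h₀⟩ := ih₀
    obtain ⟨C₁, hC₁, h₁⟩ := ih₁
    refine ⟨C₀.image (fun s => (fun a => !bit a && s.1 a, s.2)) ∪
      C₁.image (fun s => (fun a => bit a && s.1 a, s.2)), ?_, ?_, ?_, ?_⟩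
    · refine (card_union_le _ _).trans ?_
      refine (Nat.add_le_add card_image_le card_image_le).trans ?_
      simp only [Protocol.cost]
      rw [pow_succ]
      have e0 : 2 ^ t₀.cost ≤ 2 ^ max t₀.cost t₁.cost :=
        Nat.pow_le_pow_right (by norm_num) (le_max_left _ _)
      have e1 : 2 ^ t₁.cost ≤ 2 ^ max t₀.cost t₁.cost :=
        Nat.pow_le_pow_right (by norm_num) (le_max_right _ _)
      omega
    · intro a b hab
      simp only [Protocol.eval] at hab
      cases hbit : bit a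
      · rw [hbit] at hab
        obtain ⟨s, hs, h1, h2⟩ := h₀.ex a b (by simpa using hab)
        exact ⟨_, mem_union_left _ (mem_image_of_mem _ hs), by simp [hbit, h1], h2⟩
      · rw [hbit] at hab
        obtain ⟨s, hs, h1, h2⟩ := h₁.ex a b (by simpa using hab)
        exact ⟨_, mem_union_right _ (mem_image_of_mem _ hs), by simp [hbit, h1], h2⟩
    · intro a b s hs h1 h2
      rw [mem_union, mem_image, mem_image] at hs
      rcases hs with ⟨s, hs, rfl⟩ | ⟨s, hs, rfl⟩
      · simp only [Bool.and_eq_true, Bool.not_eq_true'] at h1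
        simp only [Protocol.eval, h1.1]
        exact h₀.sub a b s hs h1.2 h2
      · simp only [Bool.and_eq_true] at h1
        simp only [Protocol.eval, h1.1]
        exact h₁.sub a b s hs h1.2 h2
    · intro a b s hs s' hs' h1 h2 h3 h4
      rw [mem_union, mem_image, mem_image] at hs hs'
      rcases hs with ⟨s, hs, rfl⟩ | ⟨s, hs, rfl⟩ <;>
        rcases hs' with ⟨s', hs', rfl⟩ | ⟨s', hs', rfl⟩ <;>
        simp only [Bool.and_eq_true, Bool.not_eq_true'] at h1 h3
      · rw [h₀.inj a b s hs s' hs' h1.2 h2 h3.2 h4]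
      · rw [h1.1] at h3; simp at h3
      · rw [h1.1] at h3; simp at h3
      · rw [h₁.inj a b s hs s' hs' h1.2 h2 h3.2 h4]
  | bob bit t₀ t₁ ih₀ ih₁ =>
    obtain ⟨C₀, hC₀, h₀⟩ := ih₀
    obtain ⟨C₁, hC₁, h₁⟩ := ih₁
    refine ⟨C₀.image (fun s => (s.1, fun b => !bit b && s.2 b)) ∪
      C₁.image (fun s => (s.1, fun b => bit b && s.2 b)), ?_, ?_, ?_, ?_⟩
    · refine (card_union_le _ _).trans ?_
      refine (Nat.add_le_add card_image_le card_image_le).trans ?_
      simp only [Protocol.cost]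
      rw [pow_succ]
      have e0 : 2 ^ t₀.cost ≤ 2 ^ max t₀.cost t₁.cost :=
        Nat.pow_le_pow_right (by norm_num) (le_max_left _ _)
      have e1 : 2 ^ t₁.cost ≤ 2 ^ max t₀.cost t₁.cost :=
        Nat.pow_le_pow_right (by norm_num) (le_max_right _ _)
      omega
    · intro a b hab
      simp only [Protocol.eval] at hab
      cases hbit : bit b
      · rw [hbit] at hab
        obtain ⟨s, hs, h1, h2⟩ := h₀.ex a b (by simpa using hab)
        exact ⟨_, mem_union_left _ (mem_image_of_mem _ hs), h1, by simp [hbit, h2]⟩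
      · rw [hbit] at hab
        obtain ⟨s, hs, h1, h2⟩ := h₁.ex a b (by simpa using hab)
        exact ⟨_, mem_union_right _ (mem_image_of_mem _ hs), h1, by simp [hbit, h2]⟩
    · intro a b s hs h1 h2
      rw [mem_union, mem_image, mem_image] at hs
      rcases hs with ⟨s, hs, rfl⟩ | ⟨s, hs, rfl⟩
      · simp only [Bool.and_eq_true, Bool.not_eq_true'] at h2
        simp only [Protocol.eval, h2.1]
        exact h₀.sub a b s hs h1 h2.2
      · simp only [Bool.and_eq_true] at h2
        simp only [Protocol.eval, h2.1]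
        exact h₁.sub a b s hs h1 h2.2
    · intro a b s hs s' hs' h1 h2 h3 h4
      rw [mem_union, mem_image, mem_image] at hs hs'
      rcases hs with ⟨s, hs, rfl⟩ | ⟨s, hs, rfl⟩ <;>
        rcases hs' with ⟨s', hs', rfl⟩ | ⟨s', hs', rfl⟩ <;>
        simp only [Bool.and_eq_true, Bool.not_eq_true'] at h2 h4
      · rw [h₀.inj a b s hs s' hs' h1 h2.2 h3 h4.2]
      · rw [h2.1] at h4; simp at h4
      · rw [h2.1] at h4; simp at h4
      · rw [h₁.inj a b s hs s' hs' h1 h2.2 h3 h4.2]

theorem protocol_xor (σ : Bool) (π : Protocol A B) :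
    ∃ π' : Protocol A B, π'.cost = π.cost ∧ ∀ a b, π'.eval a b = xor σ (π.eval a b) := by
  induction π with
  | leaf o => exact ⟨.leaf (xor σ o), rfl, fun _ _ => rfl⟩
  | alice bit t₀ t₁ ih₀ ih₁ =>
    obtain ⟨π₀, h₀, h₀'⟩ := ih₀
    obtain ⟨π₁, h₁, h₁'⟩ := ih₁
    refine ⟨.alice bit π₀ π₁, by simp only [Protocol.cost, h₀, h₁], fun a b => ?_⟩
    simp only [Protocol.eval, h₀', h₁']
    split_ifs <;> rfl
  | bob bit t₀ t₁ ih₀ ih₁ =>
    obtain ⟨π₀, h₀, h₀'⟩ := ih₀
    obtain ⟨π₁, h₁, h₁'⟩ := ih₁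
    refine ⟨.bob bit π₀ π₁, by simp only [Protocol.cost, h₀, h₁], fun a b => ?_⟩
    simp only [Protocol.eval, h₀', h₁']
    split_ifs <;> rfl

end single

variable {ι Q : Type} {A B : ι → Type} [DecidableEq ι] [Fintype ι] [∀ i, Fintype (A i)]
  [∀ i, Fintype (B i)] [Fintype Q]

theorem numeric {b c r t : ℕ} (h1 : 3 ^ b ≤ 2 ^ b * r) (h2 : 3 ^ c ≤ 2 ^ c * r ^ 2)
    (hr : r < 2 ^ t) : b + c ≤ 6 * t := by
  by_contra hcon
  obtain ⟨e, he⟩ : ∃ e, b + c = 6 * t + (e + 1) := ⟨b + c - 6 * t - 1, by omega⟩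
  have h3 : 3 ^ (b + c) ≤ 2 ^ (b + c) * r ^ 3 := by
    calc 3 ^ (b + c) = 3 ^ b * 3 ^ c := pow_add _ _ _
      _ ≤ (2 ^ b * r) * (2 ^ c * r ^ 2) := Nat.mul_le_mul h1 h2
      _ = _ := by rw [pow_add]; ring
  have h4 : r ^ 3 ≤ 8 ^ t := by
    calc r ^ 3 ≤ (2 ^ t) ^ 3 := Nat.pow_le_pow_left hr.le 3
      _ = 8 ^ t := by rw [← pow_mul, mul_comm, pow_mul]; norm_num
  have h5 : 3 ^ (b + c) ≤ 2 ^ (b + c) * 8 ^ t := h3.trans (Nat.mul_le_mul le_rfl h4)
  rw [he] at h5
  have e1 : (3 : ℕ) ^ (6 * t + (e + 1)) = 729 ^ t * 3 ^ (e + 1) := by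
    rw [pow_add, pow_mul]; norm_num
  have e2 : (2 : ℕ) ^ (6 * t + (e + 1)) * 8 ^ t = 512 ^ t * 2 ^ (e + 1) := by
    rw [pow_add, pow_mul, mul_right_comm, ← mul_pow]; norm_num
  rw [e1, e2] at h5
  have h6 : 512 ^ t * 2 ^ (e + 1) < 729 ^ t * 3 ^ (e + 1) := by
    calc 512 ^ t * 2 ^ (e + 1) < 512 ^ t * 3 ^ (e + 1) :=
          Nat.mul_lt_mul_of_pos_left (Nat.pow_lt_pow_left (by norm_num) (by omega)) (by positivity)
      _ ≤ 729 ^ t * 3 ^ (e + 1) := Nat.mul_le_mul (Nat.pow_le_pow_left (by norm_num) t) le_rfl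
  omega

open Classical in
theorem card_bad (g : ∀ i, A i → B i → Bool) (f : Q → Finset ι → Bool)
    (αA : ∀ i, Bool → A i) (βA : ∀ i, Bool → B i) (hA : ∀ i u v, g i (αA i u) (βA i v) = (u && v))
    {t : ℕ} (ht : realRank (comp g f) < 2 ^ t) (S : Finset ι) (q : Q)
    (hS : der (ind (f q)) S ∅ ≠ 0) :
    (S.filter (fun i => ¬ IsRect (g i))).card ≤ 6 * t := by
  -- reduction to subsets
  have hsub : ∀ D ⊆ S, ∃ z₀, Disjoint D z₀ ∧
      der (fun c => ind (f q) (c ∪ z₀)) D ∅ ≠ 0 := by
    intro D hD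
    have h1 := hS
    rw [← union_sdiff_of_subset hD, der_split _ disjoint_sdiff] at h1
    obtain ⟨z, hz, hz'⟩ := Finset.exists_ne_zero_of_sum_ne_zero h1
    rw [mem_powerset] at hz
    refine ⟨z, disjoint_of_subset_right hz disjoint_sdiff, fun h0 => hz' ?_⟩
    rw [h0, mul_zero]
  let PO : ι → Prop := fun i =>
    ∃ (αO : Bool → A i) (βO : Bool → B i), ∀ u v, g i (αO u) (βO v) = !(u && v)
  let PX : ι → Prop := fun i =>
    ∃ (αX : Bool → A i) (βX : Bool → B i), ∀ u v, g i (αX u) (βX v) = xor u v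
  set T := S.filter (fun i => ¬ IsRect (g i)) with hT
  set D₁ := T.filter PO with hD₁
  set D₂ := T.filter (fun i => ¬ PO i) with hD₂
  have hcard : D₁.card + D₂.card = T.card := Finset.card_filter_add_card_filter_not _
  have hX : ∀ i ∈ D₂, PX i := by
    intro i hi
    rw [hD₂, mem_filter, hT, mem_filter] at hi
    rcases classify (g i) with h | h | h
    · exact absurd h hi.1.2
    · exact absurd h hi.2
    · exact h
  have hO : ∀ i ∈ D₁, PO i := fun i hi => (mem_filter.1 hi).2
  have hTS : T ⊆ S := filter_subset _ _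
  -- choose the gadgets
  have key1 : 3 ^ D₁.card ≤ 2 ^ D₁.card * realRank (comp g f) := by
    obtain ⟨z₀, hz1, hz2⟩ := hsub D₁ ((filter_subset _ _).trans hTS)
    have hch : ∀ i, ∃ (αO : Bool → A i) (βO : Bool → B i), i ∈ D₁ →
        ∀ u v, g i (αO u) (βO v) = !(u && v) := by
      intro i
      by_cases hi : i ∈ D₁
      · obtain ⟨α, β, h⟩ := hO i hi
        exact ⟨α, β, fun _ => h⟩
      · exact ⟨αA i, βA i, fun h => absurd h hi⟩
    choose αO βO hαβ using hch
    exact boundB g f αA βA hA αO βO q D₁ z₀ (fun i hi => hαβ i hi) hz1 hz2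
  have key2 : 3 ^ D₂.card ≤ 2 ^ D₂.card * realRank (comp g f) ^ 2 := by
    obtain ⟨z₀, hz1, hz2⟩ := hsub D₂ ((filter_subset _ _).trans hTS)
    have hch : ∀ i, ∃ (αX : Bool → A i) (βX : Bool → B i), i ∈ D₂ →
        ∀ u v, g i (αX u) (βX v) = xor u v := by
      intro i
      by_cases hi : i ∈ D₂
      · obtain ⟨α, β, h⟩ := hX i hi
        exact ⟨α, β, fun _ => h⟩
      · exact ⟨αA i, βA i, fun h => absurd h hi⟩
    choose αX βX hαβ using hch
    exact boundC g f αA βA hA αX βX q D₂ z₀ (fun i hi => hαβ i hi) hz1 hz2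
  have := numeric key1 key2 ht
  omega

/-- labels: a coordinate and a rectangle -/
abbrev Lab (A B : ι → Type) : Type := Σ i, (A i → Bool) × (B i → Bool)

section lift

open Classical

/-- Alice's set -/
noncomputable def secX (C : ∀ i, Finset ((A i → Bool) × (B i → Bool))) (x : ∀ i, A i) :
    Finset (Lab A B) :=
  univ.filter fun s => s.2 ∈ C s.1 ∧ s.2.1 (x s.1) = true

/-- Bob's coefficients -/
noncomputable def coef (C : ∀ i, Finset ((A i → Bool) × (B i → Bool))) (f : Q → Finset ι → Bool)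
    (p : Q × (∀ i, B i)) (S : Finset (Lab A B)) : ℝ :=
  if Set.InjOn Sigma.fst (S : Set (Lab A B)) ∧
    (∀ s ∈ S, s.2 ∈ C s.1 ∧ s.2.2 (p.2 s.1) = true) then
    alpha (univ : Finset ι).powerset (ind (f p.1)) (S.image Sigma.fst) else 0

/-- the set of coordinates with value one -/
noncomputable def onesOf (z : Finset (Lab A B)) (y : ∀ i, B i) : Finset ι :=
  (z.filter fun s => s.2.2 (y s.1) = true).image Sigma.fst

theorem val_coef (g : ∀ i, A i → B i → Bool) (C : ∀ i, Finset ((A i → Bool) × (B i → Bool)))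
    (hC : ∀ i, Cov (g i) (C i)) (f : Q → Finset ι → Bool) (p : Q × (∀ i, B i))
    (x : ∀ i, A i) {z : Finset (Lab A B)} (hz : z ⊆ secX C x) :
    val (coef C f p) z = ind (f p.1) (onesOf z p.2) := by
  have hsec : ∀ s ∈ z, s.2 ∈ C s.1 ∧ s.2.1 (x s.1) = true := fun s hs =>
    (mem_filter.1 (hz hs)).2
  set z' := z.filter fun s => s.2.2 (p.2 s.1) = true with hz'
  have hinj' : Set.InjOn Sigma.fst (z' : Set (Lab A B)) := by
    rintro ⟨i, ρ⟩ hs ⟨i', ρ'⟩ hs' h
    rw [mem_coe, hz', mem_filter] at hs hs'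
    simp only at h
    subst h
    have h1 := hsec _ hs.1
    have h2 := hsec _ hs'.1
    rw [(hC i).inj (x i) (p.2 i) ρ h1.1 ρ' h2.1 h1.2 hs.2 h2.2 hs'.2]
  unfold val
  have h1 : ∑ S ∈ z.powerset, coef C f p S = ∑ S ∈ z'.powerset,
      alpha (univ : Finset ι).powerset (ind (f p.1)) (S.image Sigma.fst) := by
    have e : z'.powerset = z.powerset.filter (fun S => S ⊆ z') := by
      ext S
      simp only [mem_filter, mem_powerset]
      exact ⟨fun h => ⟨h.trans (filter_subset _ _), h⟩, fun h => h.2⟩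
    rw [e, Finset.sum_filter]
    refine Finset.sum_congr rfl fun S hS => ?_
    rw [mem_powerset] at hS
    unfold coef
    have hiff : (Set.InjOn Sigma.fst (S : Set (Lab A B)) ∧
        (∀ s ∈ S, s.2 ∈ C s.1 ∧ s.2.2 (p.2 s.1) = true)) ↔ S ⊆ z' := by
      constructor
      · rintro ⟨_, h2⟩ s hs
        exact mem_filter.2 ⟨hS hs, (h2 s hs).2⟩
      · intro h
        refine ⟨hinj'.mono (by exact_mod_cast h), fun s hs => ⟨?_, (mem_filter.1 (h hs)).2⟩⟩
        exact (hsec s (hS hs)).1
    by_cases h : S ⊆ z'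
    · rw [if_pos (hiff.2 h), if_pos h]
    · rw [if_neg (fun h' => h (hiff.1 h')), if_neg h]
  rw [h1]
  have h2 : ∑ S ∈ z'.powerset,
      alpha (univ : Finset ι).powerset (ind (f p.1)) (S.image Sigma.fst) =
      ∑ S ∈ (z'.image Sigma.fst).powerset, alpha (univ : Finset ι).powerset (ind (f p.1)) S := by
    rw [Finset.powerset_image, Finset.sum_image]
    intro S hS S' hS' h
    rw [mem_coe, mem_powerset] at hS hS'
    have h' := congrArg (fun T : Finset ι => (T : Set ι)) h
    simp only [coe_image] at h'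
    have := (Set.InjOn.image_eq_image_iff hinj' (by exact_mod_cast hS)
      (by exact_mod_cast hS')).1 h'
    exact_mod_cast this
  rw [h2]
  have h3 := sum_alpha (univ : Finset ι).powerset (ind (f p.1)) (v := onesOf z p.2)
    (mem_powerset.2 (subset_univ _))
  rw [← h3]
  refine Finset.sum_congr ?_ fun _ _ => rfl
  ext S
  simp [onesOf, hz']

theorem onesOf_secX (g : ∀ i, A i → B i → Bool) (C : ∀ i, Finset ((A i → Bool) × (B i → Bool)))
    (hC : ∀ i, Cov (g i) (C i)) (x : ∀ i, A i) (y : ∀ i, B i) :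
    onesOf (secX C x) y = univ.filter fun i => g i (x i) (y i) = true := by
  ext i
  simp only [onesOf, secX, mem_image, mem_filter, mem_univ, true_and]
  constructor
  · rintro ⟨s, ⟨⟨h1, h2⟩, h3⟩, rfl⟩
    exact (hC s.1).sub _ _ _ h1 h2 h3
  · intro h
    obtain ⟨ρ, h1, h2, h3⟩ := (hC i).ex _ _ h
    exact ⟨⟨i, ρ⟩, ⟨⟨h1, h2⟩, h3⟩, rfl⟩

end lift

end Pool.Agent.Lib_helper10.AndRank
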