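import Mathlib
import Pool.Agent.Lib_helper10.AndRank.Compose

set_option autoImplicit false
set_option linter.unusedSectionVars false

/-! The log-rank conjecture for composed functions with gadgets other than XOR: assembly. -/

namespace Pool.Agent.Lib_helper10.AndRank

open Finset Pool.Agent.Lib_helper10.LogRank

variable {ι Q : Type} {A B : ι → Type} [DecidableEq ι] [Fintype ι] [∀ i, Fintype (A i)]
  [∀ i, Fintype (B i)] [Fintype Q]

open Classical in
theorem comp_protocol (g : ∀ i, A i → B i → Bool) (f : Q → Finset ι → Bool)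
    (αA : ∀ i, Bool → A i) (βA : ∀ i, Bool → B i) (hA : ∀ i u v, g i (αA i u) (βA i v) = (u && v))
    (C : ∀ i, Finset ((A i → Bool) × (B i → Bool))) (hC : ∀ i, Cov (g i) (C i))
    {t κ : ℕ} (ht : realRank (comp g f) < 2 ^ t) (ht1 : 1 ≤ t) (hκ : ∀ i, (C i).card ≤ 2 ^ κ)
    (hrect : ∀ i, IsRect (g i) → (C i).card ≤ 1) :
    ∃ π : Protocol (∀ i, A i) (Q × (∀ i, B i)), π.cost ≤ 40 * (t + 6 * t * κ) ^ 5 ∧
      ∀ x p, π.eval x p = comp g f x p := by
  set ℱ := (univ : Finset ι).powerset with hℱ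
  set 𝓜₀ := (univ : Finset (Finset ι)).filter (fun S => ∃ q : Q, alpha ℱ (ind (f q)) S ≠ 0)
    with h𝓜₀
  have hcard₀ : 𝓜₀.card ≤ realRank (comp g f) := by
    refine le_trans ?_ (embed_all g f αA βA hA)
    refine card_le_realRank ℱ
      (fun A hA B hB => mem_powerset.2 (subset_univ _)) f 𝓜₀ (fun S hS => ?_)
    exact ⟨mem_powerset.2 (subset_univ _), (mem_filter.1 hS).2⟩
  have hbad : ∀ S ∈ 𝓜₀, (S.filter (fun i => ¬ IsRect (g i))).card ≤ 6 * t := by
    intro S hS
    obtain ⟨q, hq⟩ := (mem_filter.1 hS).2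
    refine card_bad g f αA βA hA ht S q ?_
    rw [der_eq_alpha (D := univ) _ (subset_univ _)]
    exact mul_ne_zero (pow_ne_zero _ (by norm_num)) hq
  set 𝓜 : Finset (Finset (Lab A B)) := 𝓜₀.biUnion (fun S => (S.pi C).image
    (fun φ => S.attach.image (fun i : {i // i ∈ S} => (⟨i.1, φ i.1 i.2⟩ : Lab A B)))) with h𝓜
  have hcard : 𝓜.card < 2 ^ (t + 6 * t * κ) := by
    calc 𝓜.card ≤ ∑ S ∈ 𝓜₀, ((S.pi C).image
          (fun φ => S.attach.image
            (fun i : {i // i ∈ S} => (⟨i.1, φ i.1 i.2⟩ : Lab A B)))).card := card_biUnion_le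
      _ ≤ ∑ S ∈ 𝓜₀, 2 ^ (6 * t * κ) := by
          refine Finset.sum_le_sum fun S hS => ?_
          calc _ ≤ (S.pi C).card := card_image_le
            _ = ∏ i ∈ S, (C i).card := card_pi _ _
            _ ≤ ∏ i ∈ S, (if ¬ IsRect (g i) then 2 ^ κ else 1) := by
                refine Finset.prod_le_prod' fun i _ => ?_
                split_ifs with h
                · exact hrect i h
                · exact hκ i
            _ = (2 ^ κ) ^ (S.filter (fun i => ¬ IsRect (g i))).card := by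
                rw [Finset.prod_ite, Finset.prod_const, Finset.prod_const_one, mul_one]
            _ ≤ (2 ^ κ) ^ (6 * t) := Nat.pow_le_pow_right (by positivity) (hbad S hS)
            _ = 2 ^ (6 * t * κ) := by rw [← pow_mul, mul_comm]
      _ = 𝓜₀.card * 2 ^ (6 * t * κ) := by rw [Finset.sum_const, smul_eq_mul]
      _ < 2 ^ t * 2 ^ (6 * t * κ) :=
          Nat.mul_lt_mul_of_pos_right (lt_of_le_of_lt hcard₀ ht) (by positivity)
      _ = _ := (pow_add _ _ _).symm
  have hcore := core (t := t + 6 * t * κ) ((univ : Finset (∀ i, A i)).image (secX C))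
    (univ : Finset (Q × (∀ i, B i))) (coef C f) 𝓜 hcard
    (by
      intro p _ S _ hS
      unfold coef at hS
      split_ifs at hS with h
      · obtain ⟨hinj, hrow⟩ := h
        rw [h𝓜, mem_biUnion]
        refine ⟨S.image Sigma.fst, mem_filter.2 ⟨mem_univ _, p.1, hS⟩, ?_⟩
        have hex : ∀ i ∈ S.image Sigma.fst, ∃ ρ, (⟨i, ρ⟩ : Lab A B) ∈ S := by
          intro i hi
          obtain ⟨s, hs, rfl⟩ := mem_image.1 hi
          exact ⟨s.2, hs⟩
        choose φ hφ using hex
        rw [mem_image]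
        refine ⟨φ, ?_, ?_⟩
        · rw [mem_pi]
          intro i hi
          exact (hrow _ (hφ i hi)).1
        · ext s
          rw [mem_image]
          constructor
          · rintro ⟨i, _, rfl⟩
            exact hφ i.1 i.2
          · intro hs
            have hi : s.1 ∈ S.image Sigma.fst := mem_image_of_mem _ hs
            refine ⟨⟨s.1, hi⟩, mem_attach _ _, ?_⟩
            exact hinj (hφ s.1 hi) hs rfl
      · exact absurd rfl hS)
    (by
      rintro p _ z ⟨x', hx', hz⟩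
      obtain ⟨x, _, rfl⟩ := mem_image.1 hx'
      rw [val_coef g C hC f p x hz]
      unfold ind
      split_ifs
      · right; rfl
      · left; rfl)
    (fun z p => f p.1 (onesOf z p.2))
    (by
      intro z hz p _
      obtain ⟨x, _, rfl⟩ := mem_image.1 hz
      rw [val_coef g C hC f p x Subset.rfl]
      rfl)
  obtain ⟨π, hπ1, hπ2⟩ := CCOn.comap (secX C) (id : Q × (∀ i, B i) → Q × (∀ i, B i)) hcore
  refine ⟨π, hπ1.trans ?_, fun x p => ?_⟩
  · set T := t + 6 * t * κ with hT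
    have hT1 : 1 ≤ T := by omega
    have e : T * (2 * ((4 * T ^ 3 + 1) * (3 * T) + T + 3)) + 2 =
        24 * T ^ 5 + 8 * T ^ 2 + 6 * T + 2 := by ring
    rw [e]
    have h1 : T ≤ T ^ 5 := by
      calc T = T ^ 1 := (pow_one T).symm
        _ ≤ T ^ 5 := Nat.pow_le_pow_right hT1 (by norm_num)
    have h2 : T ^ 2 ≤ T ^ 5 := Nat.pow_le_pow_right hT1 (by norm_num)
    omega
  · rw [hπ2 x p ⟨mem_image_of_mem _ (mem_univ _), mem_univ _⟩]
    simp only [id]
    rw [onesOf_secX g C hC]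
    rfl

theorem logRank_gadget (ι : Type) [Fintype ι] [DecidableEq ι] (A B : ι → Type)
    [∀ i, Fintype (A i)] [∀ i, Fintype (B i)] (Q : Type) [Fintype Q]
    (g : ∀ i, A i → B i → Bool)
    (hg : ∀ i, ¬ ∃ (u : A i → Bool) (v : B i → Bool), ∀ a b, g i a b = xor (u a) (v b))
    (κ : ℕ) (hκ : ∀ i, ∃ ρ : Protocol (A i) (B i), ρ.cost ≤ κ ∧ ∀ a b, ρ.eval a b = g i a b)
    (f : Q → (ι → Bool) → Bool) :
    ∃ π : Protocol (∀ i, A i) (Q × (∀ i, B i)),
      (∀ x p, π.eval x p = f p.1 (fun i => g i (x i) (p.2 i))) ∧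
      (π.cost : ℝ) ≤ 10 ^ 6 * ((1 + κ) *
        (1 + Real.logb 2 (realRank fun (x : ∀ i, A i) (p : Q × (∀ i, B i)) =>
          f p.1 (fun i => g i (x i) (p.2 i))))) ^ 5 := by
  classical
  have h := fun i => exists_and (g i) (hg i)
  choose σ αA βA hA using h
  set g' : ∀ i, A i → B i → Bool := fun i a b => xor (σ i) (g i a b) with hg'
  set f' : Q → Finset ι → Bool := fun q z => f q (fun i => xor (σ i) (decide (i ∈ z))) with hf'
  have hcov : ∀ i, ∃ C : Finset ((A i → Bool) × (B i → Bool)), C.card ≤ 2 ^ κ ∧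
      (IsRect (g' i) → C.card ≤ 1) ∧ Cov (g' i) C := by
    intro i
    by_cases hr : IsRect (g' i)
    · obtain ⟨C, h1, h2⟩ := cov_rect _ hr
      exact ⟨C, h1.trans Nat.one_le_two_pow, fun _ => h1, h2⟩
    · obtain ⟨ρ, h1, h2⟩ := hκ i
      obtain ⟨ρ', h3, h4⟩ := protocol_xor (σ i) ρ
      obtain ⟨C, h5, h6⟩ := cov_protocol ρ'
      refine ⟨C, h5.trans (Nat.pow_le_pow_right (by norm_num) (h3.le.trans h1)),
        fun h => absurd h hr, ?_⟩
      have : ρ'.eval = g' i := by
        funext a b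
        rw [h4, h2]
      rwa [this] at h6
  choose C hC1 hC2 hC3 using hcov
  have hcomp : (fun (x : ∀ i, A i) (p : Q × (∀ i, B i)) =>
      f p.1 (fun i => g i (x i) (p.2 i))) = comp g' f' := by
    funext x p
    unfold comp
    simp only [hf', hg']
    congr 1
    funext i
    simp only [mem_filter, mem_univ, true_and]
    cases σ i <;> cases g i (x i) (p.2 i) <;> rfl
  rw [hcomp]
  set r := realRank (comp g' f') with hr
  set t := Nat.log 2 r + 1 with ht
  have hrt : r < 2 ^ t := Nat.lt_pow_succ_log_self (by norm_num) r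
  obtain ⟨π, hπ1, hπ2⟩ := comp_protocol g' f' αA βA hA C hC3 hrt (by omega) hC1 hC2
  refine ⟨π, fun x p => ?_, ?_⟩
  · rw [hπ2 x p, ← hcomp]
  · have hlog : (t : ℝ) ≤ 1 + Real.logb 2 r := by
      have : (Nat.log 2 r : ℝ) ≤ Real.logb 2 r := by exact_mod_cast Real.natLog_le_logb r 2
      rw [ht]; push_cast; linarith
    have hT : ((t + 6 * t * κ : ℕ) : ℝ) ≤ 6 * ((1 + κ) * (1 + Real.logb 2 r)) := by
      push_cast
      have e : (t : ℝ) + 6 * t * κ = t * (1 + 6 * κ) := by ring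
      rw [e]
      have h1 : (1 : ℝ) + 6 * κ ≤ 6 * (1 + κ) := by linarith
      calc (t : ℝ) * (1 + 6 * κ) ≤ (1 + Real.logb 2 r) * (6 * (1 + κ)) :=
            mul_le_mul hlog h1 (by positivity) (le_trans (by positivity) hlog)
        _ = _ := by ring
    have h1 : (π.cost : ℝ) ≤ 40 * ((t + 6 * t * κ : ℕ) : ℝ) ^ 5 := by exact_mod_cast hπ1
    have h2 : ((t + 6 * t * κ : ℕ) : ℝ) ^ 5 ≤ (6 * ((1 + κ) * (1 + Real.logb 2 r))) ^ 5 :=
      pow_le_pow_left₀ (by positivity) hT 5
    have h3 : 0 ≤ ((1 + (κ : ℝ)) * (1 + Real.logb 2 r)) ^ 5 := by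
      refine pow_nonneg (mul_nonneg (by positivity) (le_trans (by positivity) hlog)) 5
    rw [mul_pow] at h2
    calc (π.cost : ℝ) ≤ 40 * (6 ^ 5 * ((1 + κ) * (1 + Real.logb 2 r)) ^ 5) := by linarith
      _ ≤ _ := by nlinarith

end Pool.Agent.Lib_helper10.AndRank
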